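import Pool.Agent.KS6_88.CB.Tot1

set_option autoImplicit false
set_option linter.unusedSectionVars false

noncomputable section

namespace Pool.Agent.KS6_88.CB

open MeasureTheory Function Filter Topology
open scoped ENNReal
open Pool.Agent.T6.H42

variable {N : ℕ} {θ : ℕ → ℝ} {m0 : ℕ}

theorem geo_abs (q : ℝ) (h0 : 0 ≤ q) (h1 : q < 1) (s : Finset ℕ) (r : ℕ) :
    ∑ n ∈ s, q ^ ((r - n) + (n - r)) ≤ 2 * (1 - q)⁻¹ := by
  rw [← Finset.sum_filter_add_sum_filter_not s (fun n => n < r), two_mul]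
  refine add_le_add ?_ ?_
  · refine le_trans ?_ (geo_le q h0 h1 0 r)
    have e1 : ∑ n ∈ s.filter (fun n => n < r), q ^ ((r - n) + (n - r)) =
        ∑ n ∈ s.filter (fun n => n < r), q ^ (r - n) := by
      refine Finset.sum_congr rfl fun n hn => ?_
      rw [Finset.mem_filter] at hn
      congr 1
      omega
    rw [e1]
    refine Finset.sum_le_sum_of_subset_of_nonneg ?_ fun _ _ _ => by positivity
    intro n hn
    rw [Finset.mem_filter] at hn
    rw [Finset.mem_Icc]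
    omega
  · have e1 : ∑ n ∈ s.filter (fun n => ¬ n < r), q ^ ((r - n) + (n - r)) =
        ∑ n ∈ s.filter (fun n => ¬ n < r), q ^ (n - r) := by
      refine Finset.sum_congr rfl fun n hn => ?_
      rw [Finset.mem_filter] at hn
      congr 1
      omega
    rw [e1]
    have e2 : ∑ n ∈ s.filter (fun n => ¬ n < r), q ^ (n - r) ≤
        ∑ n ∈ Finset.Ico r (s.sup id + 1), q ^ (n - r) := by
      refine Finset.sum_le_sum_of_subset_of_nonneg ?_ fun _ _ _ => by positivity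
      intro n hn
      rw [Finset.mem_filter] at hn
      rw [Finset.mem_Ico]
      have := Finset.le_sup (f := id) hn.1
      simp only [id] at this
      omega
    refine e2.trans ?_
    rw [Finset.sum_Ico_eq_sum_range, ← tsum_geometric_of_lt_one h0 h1]
    refine le_trans (le_of_eq ?_) ((summable_geometric_of_lt_one h0 h1).sum_le_tsum
      (Finset.range (s.sup id + 1 - r)) fun _ _ => by positivity)
    refine Finset.sum_congr rfl fun n _ => ?_
    rw [Nat.add_sub_cancel_left]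

/-- the weights, concentrated near `m + M = n` -/
def cw (M n m : ℕ) : ℝ := (3 / 2) ^ ((m + M - n) + (n - (m + M)))

theorem cw_pos (M n m : ℕ) : 0 < cw M n m := by unfold cw; positivity

theorem cw_one (M n m : ℕ) : 1 ≤ cw M n m := by
  unfold cw
  exact one_le_pow₀ (by norm_num)

theorem cw_sum (M n : ℕ) (s : Finset ℕ) : ∑ m ∈ s, (cw M n m)⁻¹ ≤ 6 := by
  have e1 : ∑ m ∈ s, (cw M n m)⁻¹ =
      ∑ m ∈ s.map (addRightEmbedding M), (2 / 3 : ℝ) ^ ((n - m) + (m - n)) := by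
    rw [Finset.sum_map]
    refine Finset.sum_congr rfl fun m _ => ?_
    unfold cw
    rw [← inv_pow, addRightEmbedding_apply, add_comm (m + M - n)]
    norm_num
  rw [e1]
  refine (geo_abs (2 / 3) (by norm_num) (by norm_num) _ n).trans ?_
  norm_num

theorem wlem (M n m : ℕ) (w : ℝ) (w1 : w ≤ 1) (w8 : w ≤ 8 ^ (m + M) / 8 ^ n) :
    2 ^ (n + 1) * (cw M n m * w) ≤
      2 ^ (m + M + 1) * (3 / 4) ^ ((m + M - n) + (n - (m + M))) := by
  unfold cw
  generalize m + M = r at w8 ⊢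
  rcases le_total n r with h | h
  · obtain ⟨l, hl⟩ := Nat.exists_eq_add_of_le h
    rw [hl, Nat.add_sub_cancel_left, Nat.sub_eq_zero_of_le (Nat.le_add_right n l), add_zero]
    calc (2 : ℝ) ^ (n + 1) * ((3 / 2) ^ l * w) ≤ 2 ^ (n + 1) * ((3 / 2) ^ l * 1) := by gcongr
      _ = 2 ^ (n + 1) * (2 * (3 / 4)) ^ l := by norm_num
      _ = 2 ^ (n + l + 1) * (3 / 4) ^ l := by rw [mul_pow]; ring
  · obtain ⟨l, hl⟩ := Nat.exists_eq_add_of_le h
    rw [hl] at w8 ⊢
    rw [Nat.add_sub_cancel_left, Nat.sub_eq_zero_of_le (Nat.le_add_right r l), zero_add]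
    have e8 : (8 : ℝ) ^ r / 8 ^ (r + l) = (1 / 8) ^ l := by
      rw [pow_add, div_pow, one_pow]
      field_simp
    rw [e8] at w8
    calc (2 : ℝ) ^ (r + l + 1) * ((3 / 2) ^ l * w) ≤
          2 ^ (r + l + 1) * ((3 / 2) ^ l * (1 / 8) ^ l) := by gcongr
      _ = 2 ^ (r + 1) * (2 * (3 / 2) * (1 / 8)) ^ l := by rw [mul_pow, mul_pow]; ring
      _ ≤ 2 ^ (r + 1) * (3 / 4) ^ l := by
          gcongr
          norm_num

theorem wsum (M m m1 : ℕ) (w : ℕ → ℝ) (w1 : ∀ n, n < m1 → w n ≤ 1)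
    (w8 : ∀ n, n < m1 → w n ≤ 8 ^ (m + M) / 8 ^ n) :
    ∑ n ∈ Finset.range m1, 2 ^ (n + 1) * (cw M n m * w n) ≤ 16 * 2 ^ (m + M) := by
  calc _ ≤ ∑ n ∈ Finset.range m1, (2 : ℝ) ^ (m + M + 1) *
        (3 / 4) ^ ((m + M - n) + (n - (m + M))) := by
        refine Finset.sum_le_sum fun n hn => ?_
        rw [Finset.mem_range] at hn
        exact wlem M n m (w n) (w1 n hn) (w8 n hn)
    _ ≤ 2 ^ (m + M + 1) * (2 * (1 - 3 / 4)⁻¹) := by
        rw [← Finset.mul_sum]
        gcongr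
        exact geo_abs (3 / 4) (by norm_num) (by norm_num) _ _
    _ = _ := by rw [pow_succ]; norm_num; ring

theorem bad_bound1 (k : ℕ) (hk : 0 < k) (i : Fin N) (φ : HS (Fin N × Fin 3)) (M : ℕ)
    {n : ℕ} (hθ2 : 2 ≤ θ n) :
    ‖ind (bad θ n i) (meas_bad θ n i) φ‖ ^ 2 ≤ 2 * KK k * Wb N θ n 0 * ‖φ‖ ^ 2 +
      96 * K1 k * ∑ m ∈ Finset.Icc 0 n, cw M n m * Wb N θ n m * ‖φ - PP k m i φ‖ ^ 2 := by
  have hK1 := K1_pos k
  have hKK := KK_pos k
  have hW0 : ∀ m, 0 ≤ Wb N θ n m := fun m => Wb_nonneg n m hθ2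
  have hsum0 : 0 ≤ ∑ m ∈ Finset.Icc 0 n, cw M n m * Wb N θ n m * ‖φ - PP k m i φ‖ ^ 2 :=
    Finset.sum_nonneg fun m _ => by
      have := hW0 m
      have := cw_pos M n m
      positivity
  by_cases hN : (N : ℝ) < θ n
  · rw [ind_empty _ (bad_empty n i hN)]
    have h1 := hW0 0
    rw [norm_zero, zero_pow two_ne_zero]
    positivity
  · push Not at hN
    have hθp : 0 < θ n := by linarith
    have h1 := tele_bound k hk i φ (ind (bad θ n i) (meas_bad θ n i)) (fun φ => ind_norm_le _ φ)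
      (fun m => Wb N θ n m) (fun m => cw M n m) hW0 ?_ (fun m => cw_pos M n m) (Nat.zero_le n)
      (fun m φ => bad_PP k m n i hθ2 φ) ?_
    · refine h1.trans ?_
      have e2 : ∑ m ∈ Finset.Icc 0 n, 8 * K1 k * Wb N θ n m * cw M n m *
          ‖φ - PP k m i φ‖ ^ 2 = 8 * K1 k *
          ∑ m ∈ Finset.Icc 0 n, cw M n m * Wb N θ n m * ‖φ - PP k m i φ‖ ^ 2 := by
        rw [Finset.mul_sum]
        refine Finset.sum_congr rfl fun m _ => ?_
        ring
      rw [e2]
      refine add_le_add (le_of_eq (by ring)) ?_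
      have h3 := cw_sum M n (Finset.Icc 0 n)
      calc 2 * ((∑ m ∈ Finset.Icc 0 n, (cw M n m)⁻¹) * (8 * K1 k *
            ∑ m ∈ Finset.Icc 0 n, cw M n m * Wb N θ n m * ‖φ - PP k m i φ‖ ^ 2)) ≤
            2 * (6 * (8 * K1 k *
            ∑ m ∈ Finset.Icc 0 n, cw M n m * Wb N θ n m * ‖φ - PP k m i φ‖ ^ 2)) := by
            gcongr
        _ = _ := by ring
    · intro m
      unfold Wb
      rw [pow_succ]
      have h4 : 0 ≤ 54 * N / θ n * (8 ^ m / 8 ^ n) := by positivity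
      rcases le_total 1 (54 * N / θ n * (8 ^ m / 8 ^ n)) with h | h
      · rw [min_eq_left h]
        refine (min_le_left _ _).trans (by norm_num)
      · rw [min_eq_right h]
        refine (min_le_right _ _).trans (le_of_eq ?_)
        ring
    · simp only [Wb]
      rw [div_self (by positivity), mul_one]
      refine le_min le_rfl ?_
      rw [le_div_iff₀ hθp]
      have : (0 : ℝ) ≤ N := by positivity
      linarith

/-- The sum over all bad sets. -/
theorem bad_sum (k : ℕ) (hk : 0 < k) (i : Fin N) (φ : HS (Fin N × Fin 3)) (M m1 : ℕ)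
    (hθ2 : ∀ n, n < m1 → 2 ≤ θ n)
    (hW : ∀ n, n < m1 → ∀ m, Wb N θ n m ≤ 8 ^ (m + M) / 8 ^ n) :
    ∑ n ∈ Finset.range m1, 2 ^ (n + 1) * ‖ind (bad θ n i) (meas_bad θ n i) φ‖ ^ 2 ≤
      32 * KK k * 2 ^ M * ‖φ‖ ^ 2 +
      1536 * K1 k * 2 ^ M * ∑ m ∈ Finset.range m1, 2 ^ m * ‖φ - PP k m i φ‖ ^ 2 := by
  have hK1 := K1_pos k
  have hKK := KK_pos k
  have hW0 : ∀ n, n < m1 → ∀ m, 0 ≤ Wb N θ n m := fun n hn m => Wb_nonneg n m (hθ2 n hn)
  have hW1 : ∀ n m, Wb N θ n m ≤ 1 := fun n m => min_le_left _ _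
  have hws : ∀ m, ∑ n ∈ Finset.range m1, 2 ^ (n + 1) * (cw M n m * Wb N θ n m) ≤
      16 * 2 ^ (m + M) := fun m =>
    wsum M m m1 (fun n => Wb N θ n m) (fun n _ => hW1 n m)
      (fun n hn => hW n hn m)
  calc _ ≤ ∑ n ∈ Finset.range m1, 2 ^ (n + 1) * (2 * KK k * Wb N θ n 0 * ‖φ‖ ^ 2 +
      96 * K1 k * ∑ m ∈ Finset.range m1, cw M n m * Wb N θ n m * ‖φ - PP k m i φ‖ ^ 2) := by
        refine Finset.sum_le_sum fun n hn => ?_
        rw [Finset.mem_range] at hn
        gcongr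
        refine (bad_bound1 k hk i φ M (hθ2 n hn)).trans ?_
        refine add_le_add le_rfl (mul_le_mul_of_nonneg_left ?_ (by positivity))
        refine Finset.sum_le_sum_of_subset_of_nonneg ?_ fun m _ _ => ?_
        · intro m hm
          rw [Finset.mem_Icc] at hm
          rw [Finset.mem_range]
          omega
        · have := hW0 n hn m
          have := cw_pos M n m
          positivity
    _ = 2 * KK k * ‖φ‖ ^ 2 * (∑ n ∈ Finset.range m1, 2 ^ (n + 1) * Wb N θ n 0) +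
        96 * K1 k * ∑ m ∈ Finset.range m1,
          (∑ n ∈ Finset.range m1, 2 ^ (n + 1) * (cw M n m * Wb N θ n m)) *
            ‖φ - PP k m i φ‖ ^ 2 := by
        simp_rw [mul_add, Finset.sum_add_distrib, Finset.mul_sum, Finset.sum_mul, Finset.mul_sum]
        rw [Finset.sum_comm (s := Finset.range m1) (t := Finset.range m1)]
        refine congrArg₂ _ (Finset.sum_congr rfl fun n _ => by ring)
          (Finset.sum_congr rfl fun m _ => Finset.sum_congr rfl fun n _ => by ring)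
    _ ≤ 2 * KK k * ‖φ‖ ^ 2 * (16 * 2 ^ M) +
        96 * K1 k * ∑ m ∈ Finset.range m1, (16 * 2 ^ (m + M)) * ‖φ - PP k m i φ‖ ^ 2 := by
        have hz : ∑ n ∈ Finset.range m1, (2 : ℝ) ^ (n + 1) * Wb N θ n 0 ≤ 16 * 2 ^ M := by
          have h3 := hws 0
          rw [zero_add] at h3
          refine le_trans (Finset.sum_le_sum fun n hn => ?_) h3
          rw [Finset.mem_range] at hn
          have h1 := cw_one M n 0
          have h2 := hW0 n hn 0
          have h4 : Wb N θ n 0 ≤ cw M n 0 * Wb N θ n 0 := by nlinarith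
          gcongr
        gcongr with m hm
        exact hws m
    _ = _ := by
        rw [Finset.mul_sum, Finset.mul_sum]
        refine congrArg₂ _ (by ring) (Finset.sum_congr rfl fun m _ => ?_)
        rw [pow_add]
        ring

/-- The mean of `2^level`. -/
theorem stepD1 (k : ℕ) (hk : 0 < k) (i : Fin N) (φ : HS (Fin N × Fin 3)) (M m1 : ℕ)
    (hθ2 : ∀ n, n < m1 → 2 ≤ θ n)
    (hbig : ∀ n, m1 ≤ n → (N : ℝ) < θ n)
    (hW : ∀ n, n < m1 → ∀ m, Wb N θ n m ≤ 8 ^ (m + M) / 8 ^ n) :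
    ∫⁻ x, ENNReal.ofReal (2 ^ (lev θ 0 i x)) * ‖φ x‖ₑ ^ 2 ≤
      ENNReal.ofReal (1 + 32 * KK k * 2 ^ M) * ‖φ‖ₑ ^ 2 +
      ENNReal.ofReal (1536 * K1 k * 2 ^ M) * Ea k 2 i φ := by
  have hK1 := K1_pos k
  have hKK := KK_pos k
  have hθ : ∃ m, 0 ≤ m ∧ (N : ℝ) ≤ θ m := ⟨m1, Nat.zero_le _, (hbig m1 le_rfl).le⟩
  have hmb : ∀ n, Measurable ((bad θ n i).indicator (fun _ => (1 : ℝ≥0∞))) := fun n =>
    measurable_const.indicator (meas_bad θ n i)
  have hmφ : Measurable fun x => ‖φ x‖ₑ ^ 2 := (meas_coe φ).enorm.pow_const 2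
  have hlw : ∀ x : Fin N × Fin 3 → ℝ, ENNReal.ofReal (2 ^ (lev θ 0 i x)) ≤
      1 + ∑ n ∈ Finset.range m1, ENNReal.ofReal (2 ^ (n + 1)) *
        (bad θ n i).indicator (fun _ => 1) x := by
    intro x
    refine (lev_weight hθ i x).trans ?_
    rw [pow_zero, ENNReal.ofReal_one, tsum_eq_sum (s := Finset.range m1)]
    · refine add_le_add le_rfl (Finset.sum_le_sum fun n _ => ?_)
      rw [if_pos (Nat.zero_le n)]
    · intro n hn
      rw [Finset.mem_range, not_lt] at hn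
      rw [bad_empty n i (hbig n hn)]
      simp
  calc _ ≤ ∫⁻ x, (1 + ∑ n ∈ Finset.range m1, ENNReal.ofReal (2 ^ (n + 1)) *
        (bad θ n i).indicator (fun _ => 1) x) * ‖φ x‖ₑ ^ 2 := by
        refine lintegral_mono fun x => ?_
        gcongr
        exact hlw x
    _ = ‖φ‖ₑ ^ 2 + ∑ n ∈ Finset.range m1, 
        ENNReal.ofReal (2 ^ (n + 1)) * ‖ind (bad θ n i) (meas_bad θ n i) φ‖ₑ ^ 2 := by
        simp_rw [add_mul, one_mul]
        rw [lintegral_add_left hmφ, lint_sq]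
        congr 1
        simp_rw [Finset.sum_mul]
        rw [lintegral_finsetSum]
        · refine Finset.sum_congr rfl fun n _ => ?_
          simp_rw [mul_assoc]
          have hm2 : Measurable fun x => (bad θ n i).indicator (fun _ => (1 : ℝ≥0∞)) x *
              ‖φ x‖ₑ ^ 2 := (hmb n).mul hmφ
          rw [lintegral_const_mul _ hm2, ind_sq]
          rfl
        · intro n _
          exact ((hmb n).const_mul _).mul hmφ
    _ = ‖φ‖ₑ ^ 2 + ENNReal.ofReal (∑ n ∈ Finset.range m1, 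
        2 ^ (n + 1) * ‖ind (bad θ n i) (meas_bad θ n i) φ‖ ^ 2) := by
        rw [ENNReal.ofReal_sum_of_nonneg (fun n _ => by positivity)]
        congr 1
        refine Finset.sum_congr rfl fun n _ => ?_
        rw [ENNReal.ofReal_mul (by positivity), enorm_sq_ofReal']
    _ ≤ ‖φ‖ₑ ^ 2 + ENNReal.ofReal (32 * KK k * 2 ^ M * ‖φ‖ ^ 2 +
      1536 * K1 k * 2 ^ M * ∑ m ∈ Finset.range m1, 2 ^ m * ‖φ - PP k m i φ‖ ^ 2) := by
        gcongr
        exact bad_sum k hk i φ M m1 hθ2 hW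
    _ = ENNReal.ofReal (1 + 32 * KK k * 2 ^ M) * ‖φ‖ₑ ^ 2 +
      ENNReal.ofReal (1536 * K1 k * 2 ^ M) *
        ∑ m ∈ Finset.range m1, ENNReal.ofReal (2 ^ m) * ‖φ - PP k m i φ‖ₑ ^ 2 := by
        have hs0 : 0 ≤ ∑ m ∈ Finset.range m1, (2 : ℝ) ^ m * ‖φ - PP k m i φ‖ ^ 2 :=
          Finset.sum_nonneg fun m _ => by positivity
        rw [ENNReal.ofReal_add (by positivity) (by positivity), ENNReal.ofReal_mul (by positivity),
          enorm_sq_ofReal', ENNReal.ofReal_mul (by positivity) (p := 1536 * K1 k * 2 ^ M),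
          ENNReal.ofReal_sum_of_nonneg (fun n _ => by positivity),
          ENNReal.ofReal_add zero_le_one (by positivity), ENNReal.ofReal_one, add_mul, one_mul,
          add_assoc]
        congr 3
        refine Finset.sum_congr rfl fun m _ => ?_
        rw [ENNReal.ofReal_mul (by positivity), enorm_sq_ofReal']
    _ ≤ _ := by
        gcongr
        exact ENNReal.sum_le_tsum _

end Pool.Agent.KS6_88.CB
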