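import Pool.Agent.KS6_88.CB.Fin1

/-!
# Real charges, and the exponents above the critical one
-/

set_option autoImplicit false
set_option linter.unusedSectionVars false

noncomputable section

namespace Pool.Agent.KS6_88.CB

open MeasureTheory Function Filter Topology
open scoped ENNReal FourierTransform
open Pool.Agent.T6.H42

variable {N : ℕ}

/-- All Coulomb integrals converge for functions with finite relativistic kinetic energy. -/
theorem int_all (ψ : Wave N) (hψ : kin 1 ψ ≠ ⊤) (e : Fin N → ℝ) :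
    Integrable (fun x => coul e x * ‖ψ x‖ ^ 2) := by
  have hEk := Ea_kin 0 1 (by norm_num) (by norm_num) ψ
  rw [Real.rpow_one, zero_add] at hEk
  have hsum : ∑ i, Ea 1 2 i (toPi ψ) ≠ ⊤ :=
    ne_top_of_le_ne_top (ENNReal.mul_ne_top ENNReal.ofReal_ne_top hψ) hEk
  have hfin : ∀ i, Ea 1 2 i (toPi ψ) ≠ ⊤ := fun i =>
    ne_top_of_le_ne_top hsum (Finset.single_le_sum (f := fun i => Ea 1 2 i (toPi ψ))
      (fun _ _ => zero_le) (Finset.mem_univ i))
  exact int_toPi ψ e (coulR_int (pairFin1 1 one_pos (toPi ψ) hfin))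

theorem meas_pos (i : Fin N) : Measurable fun ξ : Cfg N => pos ξ i := by
  unfold pos
  fun_prop

/-- A finite kinetic energy with a larger exponent. -/
theorem kin_one (α : ℝ) (hα : 1 ≤ α) (ψ : Wave N) (h : kin α ψ ≠ ⊤) : kin 1 ψ ≠ ⊤ := by
  have hmF : Measurable fun ξ : Cfg N => ‖(𝓕 ψ : Wave N) ξ‖ₑ ^ 2 :=
    ((Lp.stronglyMeasurable (𝓕 ψ : Wave N)).measurable).enorm.pow_const 2
  have h1 : kin 1 ψ ≤ ∫⁻ ξ, (N * ‖(𝓕 ψ : Wave N) ξ‖ₑ ^ 2 +
      ENNReal.ofReal ((∑ i, (2 * Real.pi * ‖pos ξ i‖) ^ α) * ‖(𝓕 ψ : Wave N) ξ‖ ^ 2)) := by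
    unfold kin
    refine lintegral_mono fun ξ => ?_
    simp only
    have e1 : (N : ℝ≥0∞) * ‖(𝓕 ψ : Wave N) ξ‖ₑ ^ 2 =
        ENNReal.ofReal (N * ‖(𝓕 ψ : Wave N) ξ‖ ^ 2) := by
      rw [ENNReal.ofReal_mul (by positivity), ENNReal.ofReal_natCast, enorm_sq_ofReal]
    rw [e1, ← ENNReal.ofReal_add (by positivity) (by positivity), ← add_mul]
    apply ENNReal.ofReal_le_ofReal
    gcongr
    have e2 : ∀ i, (2 * Real.pi * ‖pos ξ i‖) ^ (1 : ℝ) ≤ 1 + (2 * Real.pi * ‖pos ξ i‖) ^ α := by
      intro i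
      set t : ℝ := 2 * Real.pi * ‖pos ξ i‖ with ht
      have ht0 : 0 ≤ t := by positivity
      rw [Real.rpow_one]
      rcases le_total t 1 with h2 | h2
      · have := Real.rpow_nonneg ht0 α
        linarith
      · have h3 := Real.rpow_le_rpow_of_exponent_le h2 hα
        rw [Real.rpow_one] at h3
        linarith
    calc ∑ i, (2 * Real.pi * ‖pos ξ i‖) ^ (1 : ℝ) ≤
        ∑ i : Fin N, (1 + (2 * Real.pi * ‖pos ξ i‖) ^ α) := Finset.sum_le_sum fun i _ => e2 i
      _ = _ := by rw [Finset.sum_add_distrib]; simp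
  refine ne_top_of_le_ne_top ?_ h1
  rw [lintegral_add_left (hmF.const_mul _), lintegral_const_mul _ hmF]
  refine ENNReal.add_ne_top.2 ⟨ENNReal.mul_ne_top (ENNReal.natCast_ne_top N) ?_, h⟩
  rw [lintE]
  exact ENNReal.pow_ne_top enorm_ne_top

theorem coul_affine (s : Fin N → ℝ) (i : Fin N) (x : Cfg N) :
    coul s x = (1 + s i) / 2 * coul (update s i 1) x +
      (1 - s i) / 2 * coul (update s i (-1)) x := by
  unfold coul
  rw [Finset.mul_sum, Finset.mul_sum, ← Finset.sum_add_distrib]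
  refine Finset.sum_congr rfl fun p _ => ?_
  rw [Finset.mul_sum, Finset.mul_sum, ← Finset.sum_add_distrib]
  refine Finset.sum_congr rfl fun q _ => ?_
  split_ifs with hpq
  · by_cases hp : p = i
    · have hq : q ≠ i := by
        rintro rfl
        exact absurd hpq (by rw [hp]; exact lt_irrefl _)
      subst hp
      rw [update_self, update_self, update_of_ne hq, update_of_ne hq]
      ring
    · by_cases hq : q = i
      · subst hq
        rw [update_self, update_self, update_of_ne hp, update_of_ne hp]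
        ring
      · rw [update_of_ne hp, update_of_ne hp, update_of_ne hq, update_of_ne hq]
        ring
  · ring

theorem pot_affine (ψ : Wave N) (hψ : kin 1 ψ ≠ ⊤) (s : Fin N → ℝ) (i : Fin N) :
    pot s ψ = (1 + s i) / 2 * pot (update s i 1) ψ + (1 - s i) / 2 * pot (update s i (-1)) ψ := by
  unfold pot
  rw [← integral_const_mul, ← integral_const_mul,
    ← integral_add ((int_all ψ hψ _).const_mul _) ((int_all ψ hψ _).const_mul _)]
  refine integral_congr_ae (Eventually.of_forall fun x => ?_)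
  simp only
  rw [coul_affine s i x]
  ring

/-- The extreme charges are the worst ones. -/
theorem exists_sign (ψ : Wave N) (hψ : kin 1 ψ ≠ ⊤) (S : Finset (Fin N)) :
    ∀ e : Fin N → ℝ, (∀ i, |e i| ≤ 1) → ∃ s : Fin N → ℝ, (∀ i, |s i| ≤ 1) ∧
      (∀ i ∈ S, s i = 1 ∨ s i = -1) ∧ pot s ψ ≤ pot e ψ := by
  classical
  induction S using Finset.induction_on with
  | empty => exact fun e he => ⟨e, he, by simp, le_rfl⟩
  | insert i S hi ih =>
    intro e he
    obtain ⟨s, hs1, hs2, hs3⟩ := ih e he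
    have h1 := pot_affine ψ hψ s i
    have h2 := abs_le.1 (hs1 i)
    have key : ∀ t : ℝ, (t = 1 ∨ t = -1) → pot (update s i t) ψ ≤ pot s ψ →
        ∃ s : Fin N → ℝ, (∀ i, |s i| ≤ 1) ∧
      (∀ j ∈ insert i S, s j = 1 ∨ s j = -1) ∧ pot s ψ ≤ pot e ψ := by
      intro t ht hle
      refine ⟨update s i t, fun j => ?_, fun j hj => ?_, hle.trans hs3⟩
      · by_cases hj : j = i
        · subst hj
          rw [update_self]
          rcases ht with rfl | rfl <;> simp
        · rw [update_of_ne hj]; exact hs1 j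
      · rw [Finset.mem_insert] at hj
        by_cases hji : j = i
        · subst hji
          rw [update_self]; exact ht
        · rw [update_of_ne hji]
          exact hs2 j (hj.resolve_left hji)
    rcases le_total (pot (update s i 1) ψ) (pot (update s i (-1)) ψ) with h | h
    · refine key 1 (Or.inl rfl) ?_
      nlinarith
    · refine key (-1) (Or.inr rfl) ?_
      nlinarith

/-- A bound for the charges `±1` holds for all charges in `[-1, 1]`. -/
theorem real_charges (ψ : Wave N) (hψ : kin 1 ψ ≠ ⊤) (B : ℝ)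
    (hB : ∀ e : Fin N → ℝ, IsCharge e → -pot e ψ ≤ B) (e : Fin N → ℝ) (he : ∀ i, |e i| ≤ 1) :
    -pot e ψ ≤ B := by
  obtain ⟨s, -, h2, h3⟩ := exists_sign ψ hψ Finset.univ e he
  have := hB s fun i => h2 i (Finset.mem_univ i)
  linarith

end Pool.Agent.KS6_88.CB
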