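import Pool.Agent.KS6_88.CB.Gen

/-!
# The critical coupling
-/

set_option autoImplicit false
set_option linter.unusedSectionVars false

noncomputable section

namespace Pool.Agent.KS6_88.CB

open MeasureTheory Function Filter Topology
open scoped ENNReal FourierTransform
open Pool.Agent.T6.H42

variable {N : ℕ}

theorem kin_smul (α : ℝ) (a : ℝ) (ψ : Wave N) :
    kin α ((a : ℂ) • ψ) = ENNReal.ofReal (a ^ 2) * kin α ψ := by
  unfold kin
  rw [← lintegral_const_mul' _ _ ENNReal.ofReal_ne_top]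
  refine lintegral_congr_ae ?_
  have h0 : (𝓕 ((a : ℂ) • ψ) : Wave N) = (a : ℂ) • (𝓕 ψ : Wave N) :=
    FourierTransform.fourier_smul _ _
  rw [h0]
  filter_upwards [Lp.coeFn_smul (a : ℂ) (𝓕 ψ : Wave N)] with ξ h
  rw [h, Pi.smul_apply, norm_smul, mul_pow, Complex.norm_real, Real.norm_eq_abs, sq_abs,
    ← ENNReal.ofReal_mul (by positivity)]
  congr 1
  ring

theorem pot_smul (e : Fin N → ℝ) (a : ℝ) (ψ : Wave N) :
    pot e ((a : ℂ) • ψ) = a ^ 2 * pot e ψ := by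
  unfold pot
  rw [← integral_const_mul]
  refine integral_congr_ae ?_
  filter_upwards [Lp.coeFn_smul (a : ℂ) ψ] with x h
  rw [h, Pi.smul_apply, norm_smul, mul_pow, Complex.norm_real, Real.norm_eq_abs, sq_abs]
  ring

/-- The unitary dilation. -/
theorem exists_dil (e : Fin N → ℝ) (ψ : Wave N) (hn : ‖ψ‖ = 1) (hψ : kin 1 ψ ≠ ⊤) {c : ℝ}
    (hc : 0 < c) : ∃ φ : Wave N, ‖φ‖ = 1 ∧ kin 1 φ ≠ ⊤ ∧
      (kin 1 φ).toReal = c * (kin 1 ψ).toReal ∧ pot e φ = c * pot e ψ := by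
  have hj := jac_pos (ι := Fin N × Fin 3) hc.ne'
  set J := jac (Fin N × Fin 3) c with hJ
  set a : ℝ := (Real.sqrt J)⁻¹ with ha
  have ha2 : a ^ 2 = J⁻¹ := by rw [ha, inv_pow, Real.sq_sqrt hj.le]
  have hk : kin 1 ((a : ℂ) • dilL hc.ne' ψ) = ENNReal.ofReal c * kin 1 ψ := by
    rw [kin_smul, kin_dil 1 hc ψ, Real.rpow_one, ha2, ← mul_assoc,
      ← ENNReal.ofReal_mul (by positivity), ← hJ]
    congr 2
    field_simp
  refine ⟨(a : ℂ) • dilL hc.ne' ψ, ?_, ?_, ?_, ?_⟩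
  · have h1 : ‖(a : ℂ) • dilL hc.ne' ψ‖ ^ 2 = 1 := by
      rw [norm_smul, mul_pow, norm_dil hc, hn, Complex.norm_real, Real.norm_eq_abs, sq_abs,
        ha2, ← hJ]
      field_simp
    have h2 := norm_nonneg ((a : ℂ) • dilL hc.ne' ψ)
    nlinarith
  · rw [hk]
    exact ENNReal.mul_ne_top ENNReal.ofReal_ne_top hψ
  · rw [hk, ENNReal.toReal_mul, ENNReal.toReal_ofReal hc.le]
  · rw [pot_smul, pot_dil e hc, ha2, ← hJ]
    field_simp

/-- Instability above the critical coupling. -/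
theorem unstable {e : Fin N → ℝ} {ψ : Wave N} (hn : ‖ψ‖ = 1) (hψ : kin 1 ψ ≠ ⊤)
    {g : ℝ} (h : (kin 1 ψ).toReal + g * pot e ψ < 0) (B : ℝ) :
    ∃ φ : Wave N, ‖φ‖ = 1 ∧ kin 1 φ ≠ ⊤ ∧ (kin 1 φ).toReal + g * pot e φ < B := by
  set η : ℝ := -((kin 1 ψ).toReal + g * pot e ψ) with hη
  have hη0 : 0 < η := by linarith
  set c : ℝ := (|B| + 1) / η with hc
  have hc0 : 0 < c := by positivity
  obtain ⟨φ, h1, h2, h3, h4⟩ := exists_dil e ψ hn hψ hc0
  refine ⟨φ, h1, h2, ?_⟩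
  rw [h3, h4]
  have h5 : c * (kin 1 ψ).toReal + g * (c * pot e ψ) = -(c * η) := by rw [hη]; ring
  have h6 : c * η = |B| + 1 := by rw [hc]; field_simp
  rw [h5, h6]
  have := neg_abs_le B
  linarith

end Pool.Agent.KS6_88.CB
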