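import Pool.Agent.KS6_88.CB.Bad1

set_option autoImplicit false
set_option linter.unusedSectionVars false

noncomputable section

namespace Pool.Agent.KS6_88.CB

open MeasureTheory Function Filter Topology
open scoped ENNReal
open Pool.Agent.T6.H42

variable {N : ℕ}

/-- the exponent of the threshold: `s` below the level `m1`, and large above it -/
def sg (N s m1 m : ℕ) : ℕ := if m < m1 then s else s + N

/-- the thresholds -/
def th (N s m1 m : ℕ) : ℝ := 2 ^ (sg N s m1 m)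

theorem sg_mono (N s m1 : ℕ) : Monotone (sg N s m1) := by
  intro a b h
  unfold sg
  split_ifs <;> omega

theorem th_mono (N s m1 : ℕ) : Monotone (th N s m1) := by
  intro a b h
  exact pow_le_pow_right₀ (by norm_num) (sg_mono N s m1 h)

theorem th_pos (N s m1 m : ℕ) : 0 < th N s m1 m := by unfold th; positivity

theorem th_lt {N s m1 m : ℕ} (h : m < m1) : th N s m1 m = 2 ^ s := by
  unfold th sg; rw [if_pos h]

theorem th_ge {N s m1 m : ℕ} (h : m1 ≤ m) : th N s m1 m = 2 ^ (s + N) := by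
  unfold th sg; rw [if_neg (not_lt.2 h)]

theorem th_big {N s m1 m : ℕ} (h : m1 ≤ m) : (N : ℝ) < th N s m1 m := by
  rw [th_ge h]
  have h1 : N < 2 ^ N := Nat.lt_two_pow_self
  have h2 : (N : ℝ) < 2 ^ N := by exact_mod_cast h1
  exact h2.trans_le (pow_le_pow_right₀ (by norm_num) (by omega))

/-- a constant -/
def CE (k : ℕ) : ℝ := 4 / 3 * (2 + 324 * KK k) + 54 * C1 k

/-- a constant -/
def CBC (k : ℕ) : ℝ := 1 / 2 * CB k + 144 * KK k

theorem CE_pos (k : ℕ) : 0 < CE k := by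
  have hK1 := K1_pos k
  have hKK := KK_pos k
  unfold CE C1
  positivity

theorem CBC_pos (k : ℕ) : 0 < CBC k := by
  have hKK := KK_pos k
  have hCB : 0 ≤ CB k := by unfold CB; positivity
  unfold CBC
  positivity

theorem par1 (k : ℕ) (hk : 0 < k) (N s m1 : ℕ) :
    Par1 k (th N s m1) 0 (fun m => m + sg N s m1 m) (CE k) (CBC k) := by
  have hKK := KK_pos k
  have hC1 : 0 < C1 k := by unfold C1; have := K1_pos k; positivity
  refine ⟨hk, fun m => (th_pos N s m1 m).le, th_mono N s m1, (CE_pos k).le, (CBC_pos k).le,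
    ?_, fun m _ => Nat.le_add_right _ _, ?_, ?_, ?_⟩
  · intro a b h
    exact add_le_add h (sg_mono N s m1 h)
  · intro m _
    unfold CBC th
    set σ := sg N s m1 m
    have h4 : (4 : ℝ) ^ (m + σ) = 2 ^ m * 2 ^ m * (2 ^ σ * 2 ^ σ) := by
      rw [pow_add]
      congr 1
      · rw [← mul_pow]; norm_num
      · rw [← mul_pow]; norm_num
    have h8 : (8 : ℝ) ^ m = 2 ^ m * 2 ^ m * 2 ^ m := by rw [← mul_pow, ← mul_pow]; norm_num
    have h1 : 27 * (2 : ℝ) ^ σ * (16 / 3 * KK k * 8 ^ m / 4 ^ (m + σ)) =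
        144 * KK k * 2 ^ m / 2 ^ σ := by
      rw [h4, h8]
      field_simp
      norm_num
    rw [h1, add_mul]
    refine add_le_add le_rfl ?_
    exact div_le_self (by positivity) (one_le_pow₀ (by norm_num))
  · intro m _
    unfold CE th
    set σ := sg N s m1 m
    have h1 : (2 : ℝ) / 3 * (2 ^ (m + σ + 1) + 324 * KK k * 2 ^ σ * 2 ^ m) =
        2 / 3 * (2 + 324 * KK k) * 2 ^ σ * 2 ^ m := by
      rw [pow_succ, pow_add]; ring
    rw [h1]
    gcongr
    linarith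
  · unfold CE
    nlinarith

theorem Wb_le {N s M m1 : ℕ} (hNM : (54 : ℝ) * N ≤ 2 ^ s * 8 ^ M) {n : ℕ} (hn : n < m1) (m : ℕ) :
    Wb N (th N s m1) n m ≤ 8 ^ (m + M) / 8 ^ n := by
  unfold Wb
  refine (min_le_right _ _).trans ?_
  rw [th_lt hn]
  have h1 : 54 * (N : ℝ) / 2 ^ s ≤ 8 ^ M := by
    rw [div_le_iff₀ (by positivity)]
    linarith
  calc 54 * (N : ℝ) / 2 ^ s * (8 ^ m / 8 ^ n) ≤ 8 ^ M * (8 ^ m / 8 ^ n) := by gcongr
    _ = _ := by rw [pow_add]; ring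

theorem tail_eq (f : ℕ → ℝ≥0∞) (m1 : ℕ) :
    ∑' m, (if m1 ≤ m then f m else 0) = ∑' m, f (m + m1) := by
  rw [← Summable.sum_add_tsum_nat_add' (k := m1) ENNReal.summable]
  have e1 : ∑ n ∈ Finset.range m1, (if m1 ≤ n then f n else 0) = 0 := by
    refine Finset.sum_eq_zero fun n hn => ?_
    rw [Finset.mem_range] at hn
    rw [if_neg (by omega)]
  rw [e1, zero_add]
  refine tsum_congr fun m => ?_
  rw [if_pos (by omega)]

/-- The inequality at the critical exponent, for the piecewise polynomial functional. -/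
theorem crit (k : ℕ) (hk : 0 < k) (s M : ℕ) (hs : 1 ≤ s) (hNM : (54 : ℝ) * N ≤ 2 ^ s * 8 ^ M)
    (e : Fin N → ℝ) (he : ∀ i, e i = 1 ∨ e i = -1)
    (φ : HS (Fin N × Fin 3)) (hfin : ∀ i, Ea k 2 i φ ≠ ⊤) :
    ENNReal.ofReal (-∫ x, coulR e x * ‖φ x‖ ^ 2) ≤
      ENNReal.ofReal (N * (CBC k * (1 + 32 * KK k * 2 ^ M))) * ‖φ‖ₑ ^ 2 +
        ENNReal.ofReal (CBC k * (1536 * K1 k * 2 ^ M) + CE k * 2 ^ s) * ∑ i, Ea k 2 i φ := by
  have hKK := KK_pos k
  have hK1 := K1_pos k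
  have hCE := CE_pos k
  have hCBC := CBC_pos k
  set f : Fin N → ℕ → ℝ≥0∞ := fun i m => ENNReal.ofReal (2 ^ m) * ‖φ - PP k m i φ‖ₑ ^ 2 with hf
  have hEf : ∀ i, Ea k 2 i φ = ∑' m, f i m := fun i => rfl
  have hstep : ∀ m1 : ℕ, ∀ i, ENNReal.ofReal (CBC k) *
      (∫⁻ x, ENNReal.ofReal (2 ^ (lev (th N s m1) 0 i x)) * ‖φ x‖ₑ ^ 2) +
        ∑' m, (if 0 ≤ m then
          ENNReal.ofReal (CE k * th N s m1 m * 2 ^ m) * ‖φ - PP k m i φ‖ₑ ^ 2 else 0) ≤
      ENNReal.ofReal (CBC k * (1 + 32 * KK k * 2 ^ M)) * ‖φ‖ₑ ^ 2 +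
        ENNReal.ofReal (CBC k * (1536 * K1 k * 2 ^ M) + CE k * 2 ^ s) * Ea k 2 i φ +
        ENNReal.ofReal (CE k * 2 ^ (s + N)) * ∑' m, f i (m + m1) := by
    intro m1 i
    have h1 := stepD1 (N := N) (θ := th N s m1) k hk i φ M m1
      (fun n hn => by
        rw [th_lt hn]
        calc (2 : ℝ) = 2 ^ 1 := by norm_num
          _ ≤ 2 ^ s := pow_le_pow_right₀ (by norm_num) hs)
      (fun n hn => th_big hn) (fun n hn m => Wb_le hNM hn m)
    have h2 : ∑' m, (if 0 ≤ m then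
          ENNReal.ofReal (CE k * th N s m1 m * 2 ^ m) * ‖φ - PP k m i φ‖ₑ ^ 2 else 0) ≤
        ENNReal.ofReal (CE k * 2 ^ s) * Ea k 2 i φ +
        ENNReal.ofReal (CE k * 2 ^ (s + N)) * ∑' m, f i (m + m1) := by
      rw [← tail_eq, hEf, ← ENNReal.tsum_mul_left, ← ENNReal.tsum_mul_left, ← ENNReal.tsum_add]
      refine ENNReal.tsum_le_tsum fun m => ?_
      rw [if_pos (Nat.zero_le m)]
      have hth := th_pos N s m1 m
      rcases lt_or_ge m m1 with h | h
      · rw [if_neg (not_le.2 h), th_lt h, mul_zero, add_zero, hf,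
          ENNReal.ofReal_mul (by positivity), mul_assoc]
      · rw [if_pos h, th_ge h, hf, ENNReal.ofReal_mul (by positivity) (p := CE k * 2 ^ (s + N)),
          mul_assoc]
        exact le_add_self
    calc _ ≤ ENNReal.ofReal (CBC k) * (ENNReal.ofReal (1 + 32 * KK k * 2 ^ M) * ‖φ‖ₑ ^ 2 +
          ENNReal.ofReal (1536 * K1 k * 2 ^ M) * Ea k 2 i φ) +
          (ENNReal.ofReal (CE k * 2 ^ s) * Ea k 2 i φ +
        ENNReal.ofReal (CE k * 2 ^ (s + N)) * ∑' m, f i (m + m1)) :=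
          add_le_add (mul_le_mul_right h1 _) h2
      _ = _ := by
          rw [ENNReal.ofReal_add (by positivity) (by positivity) (p := CBC k * _),
            ENNReal.ofReal_mul hCBC.le, ENNReal.ofReal_mul hCBC.le]
          ring
  have hlim : ∀ m1 : ℕ, ENNReal.ofReal (-∫ x, coulR e x * ‖φ x‖ ^ 2) ≤
      ∑ i, (ENNReal.ofReal (CBC k * (1 + 32 * KK k * 2 ^ M)) * ‖φ‖ₑ ^ 2 +
        ENNReal.ofReal (CBC k * (1536 * K1 k * 2 ^ M) + CE k * 2 ^ s) * Ea k 2 i φ +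
        ENNReal.ofReal (CE k * 2 ^ (s + N)) * ∑' m, f i (m + m1)) := by
    intro m1
    refine (total1 (par1 k hk N s m1) ⟨m1, Nat.zero_le _, (th_big le_rfl).le⟩ e he φ
      (pairFin1 k hk φ hfin)).trans ?_
    exact Finset.sum_le_sum fun i _ => hstep m1 i
  have htend : Tendsto (fun m1 : ℕ => ∑ i, (ENNReal.ofReal (CBC k * (1 + 32 * KK k * 2 ^ M)) *
        ‖φ‖ₑ ^ 2 +
        ENNReal.ofReal (CBC k * (1536 * K1 k * 2 ^ M) + CE k * 2 ^ s) * Ea k 2 i φ +
        ENNReal.ofReal (CE k * 2 ^ (s + N)) * ∑' m, f i (m + m1))) atTop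
      (𝓝 (∑ i : Fin N, (ENNReal.ofReal (CBC k * (1 + 32 * KK k * 2 ^ M)) * ‖φ‖ₑ ^ 2 +
        ENNReal.ofReal (CBC k * (1536 * K1 k * 2 ^ M) + CE k * 2 ^ s) * Ea k 2 i φ +
        ENNReal.ofReal (CE k * 2 ^ (s + N)) * 0))) := by
    refine tendsto_finsetSum _ fun i _ => ?_
    refine tendsto_const_nhds.add ?_
    refine ENNReal.Tendsto.const_mul ?_ (Or.inr ENNReal.ofReal_ne_top)
    exact ENNReal.tendsto_sum_nat_add (f i) (hfin i)
  refine (ge_of_tendsto' htend hlim).trans (le_of_eq ?_)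
  have hN : ENNReal.ofReal (N * (CBC k * (1 + 32 * KK k * 2 ^ M))) =
      N * ENNReal.ofReal (CBC k * (1 + 32 * KK k * 2 ^ M)) := by
    rw [ENNReal.ofReal_mul (by positivity), ENNReal.ofReal_natCast]
  simp only [mul_zero, add_zero]
  rw [hN, Finset.sum_add_distrib, Finset.sum_const, Finset.card_univ,
    Fintype.card_fin, nsmul_eq_mul, Finset.mul_sum]
  ring

end Pool.Agent.KS6_88.CB
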