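import Pool.Graph.R_pool_sql_team_seeded_47a924f7.T6.H42.Low3

set_option autoImplicit false
set_option linter.unusedSectionVars false

noncomputable section

namespace Pool.Agent.KS6_88.CB

open MeasureTheory Function Filter Topology Module
open scoped ENNReal FourierTransform SchwartzMap
open Pool.Agent.T6.H42

variable {ι : Type} [DecidableEq ι] [Fintype ι]

/-- `L²` of the Euclidean space -/
abbrev L2E (ι : Type) [Fintype ι] : Type := Lp ℂ 2 (volume : Measure (EE ι))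

/-- the Jacobian of the dilation -/
def jac (ι : Type) [Fintype ι] (c : ℝ) : ℝ := |(c ^ finrank ℝ (EE ι))⁻¹|

theorem jac_pos {c : ℝ} (hc : c ≠ 0) : 0 < jac ι c := by
  unfold jac
  positivity

theorem jac_inv {c : ℝ} (hc : c ≠ 0) : jac ι c * jac ι c⁻¹ = 1 := by
  unfold jac
  rw [← abs_mul, ← mul_inv, ← mul_pow, mul_inv_cancel₀ hc, one_pow, inv_one, abs_one]

theorem lint_smul {c : ℝ} (hc : c ≠ 0) (f : EE ι → ℝ≥0∞) :
    ∫⁻ x, f (c • x) = ENNReal.ofReal (jac ι c) * ∫⁻ x, f x := by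
  have h1 : MeasurableEmbedding (fun x : EE ι => c • x) :=
    (Homeomorph.smulOfNeZero c hc).measurableEmbedding
  rw [← h1.lintegral_map, Measure.map_addHaar_smul _ hc, lintegral_smul_measure]
  rfl

theorem memLp_dil {c : ℝ} (hc : c ≠ 0) (ψ : L2E ι) : MemLp (fun x => ψ (c • x)) 2 volume := by
  have h1 : MeasurableEmbedding (fun x : EE ι => c • x) :=
    (Homeomorph.smulOfNeZero c hc).measurableEmbedding
  have h2 : MemLp ψ 2 (Measure.map (fun x : EE ι => c • x) volume) := by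
    rw [Measure.map_addHaar_smul _ hc]
    exact (Lp.memLp ψ).smul_measure (by simp)
  exact h2.comp_of_map h1.measurable.aemeasurable

/-- The dilation operator. -/
def dilF {c : ℝ} (hc : c ≠ 0) (ψ : L2E ι) : L2E ι := (memLp_dil hc ψ).toLp

theorem dilF_coe {c : ℝ} (hc : c ≠ 0) (ψ : L2E ι) :
    (dilF hc ψ : EE ι → ℂ) =ᵐ[volume] fun x => ψ (c • x) := MemLp.coeFn_toLp _

theorem dilF_enorm {c : ℝ} (hc : c ≠ 0) (ψ : L2E ι) :
    ‖dilF hc ψ‖ₑ ^ 2 = ENNReal.ofReal (jac ι c) * ‖ψ‖ₑ ^ 2 := by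
  rw [← lintE, ← lintE, ← lint_smul hc]
  refine lintegral_congr_ae ?_
  filter_upwards [dilF_coe hc ψ] with x hx
  rw [hx]

theorem dilF_norm {c : ℝ} (hc : c ≠ 0) (ψ : L2E ι) :
    ‖dilF hc ψ‖ ^ 2 = jac ι c * ‖ψ‖ ^ 2 := by
  have h1 := dilF_enorm hc ψ
  have h2 := congrArg ENNReal.toReal h1
  simpa [ENNReal.toReal_mul, (jac_pos (ι := ι) hc).le] using h2

theorem qmp {c : ℝ} (hc : c ≠ 0) {f g : EE ι → ℂ} (h : f =ᵐ[volume] g) :
    (fun x => f (c • x)) =ᵐ[volume] fun x => g (c • x) :=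
  (Measure.quasiMeasurePreserving_smul volume hc).ae_eq_comp h

/-- The dilation operator as a continuous linear map. -/
def dilL {c : ℝ} (hc : c ≠ 0) : L2E ι →L[ℂ] L2E ι :=
  LinearMap.mkContinuous
    { toFun := dilF hc
      map_add' := by
        intro ψ φ
        apply Lp.ext
        filter_upwards [dilF_coe hc (ψ + φ), dilF_coe hc ψ, dilF_coe hc φ,
          Lp.coeFn_add (dilF hc ψ) (dilF hc φ), qmp hc (Lp.coeFn_add ψ φ)] with x h1 h2 h3 h4 h5
        rw [h1, h4, h5]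
        simp only [Pi.add_apply]
        rw [h2, h3]
      map_smul' := by
        intro a ψ
        apply Lp.ext
        filter_upwards [dilF_coe hc (a • ψ), dilF_coe hc ψ,
          Lp.coeFn_smul a (dilF hc ψ), qmp hc (Lp.coeFn_smul a ψ)] with x h1 h2 h3 h4
        rw [RingHom.id_apply, h1, h4, h3]
        simp only [Pi.smul_apply]
        rw [h2] }
    (Real.sqrt (jac ι c)) (by
      intro ψ
      apply le_of_sq_le_sq _ (by positivity)
      rw [mul_pow, Real.sq_sqrt (jac_pos hc).le]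
      exact (dilF_norm hc ψ).le)

theorem dilL_apply {c : ℝ} (hc : c ≠ 0) (ψ : L2E ι) : dilL hc ψ = dilF hc ψ := rfl

theorem dilL_coe {c : ℝ} (hc : c ≠ 0) (ψ : L2E ι) :
    (dilL hc ψ : EE ι → ℂ) =ᵐ[volume] fun x => ψ (c • x) := dilF_coe hc ψ

theorem fourier_smul {c : ℝ} (hc : c ≠ 0) (f : EE ι → ℂ) (ξ : EE ι) :
    𝓕 (fun x => f (c • x)) ξ = (jac ι c : ℂ) * 𝓕 f (c⁻¹ • ξ) := by
  rw [Real.fourier_eq, Real.fourier_eq]
  have h1 := Measure.integral_comp_smul (volume : Measure (EE ι))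
    (fun v => Real.fourierChar (-(inner ℝ v (c⁻¹ • ξ))) • f v) c
  have h2 : ∀ v : EE ι, inner ℝ (c • v) (c⁻¹ • ξ) = inner ℝ v ξ := by
    intro v
    rw [inner_smul_left, inner_smul_right]
    simp only [conj_trivial]
    field_simp
  simp_rw [h2] at h1
  rw [h1, Complex.real_smul]
  rfl

/-- The dilation of the Fourier transform. -/
theorem fourier_dil {c : ℝ} (hc : c ≠ 0) (ψ : L2E ι) :
    (𝓕 (dilL hc ψ) : L2E ι) = (jac ι c : ℂ) • dilL (inv_ne_zero hc) (𝓕 ψ : L2E ι) := by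
  refine DenseRange.induction_on (p := fun ψ : L2E ι => (𝓕 (dilL hc ψ) : L2E ι) =
    (jac ι c : ℂ) • dilL (inv_ne_zero hc) (𝓕 ψ : L2E ι))
    (SchwartzMap.denseRange_toLpCLM (E := EE ι) (F := ℂ) (p := 2) (μ := volume)
      ENNReal.ofNat_ne_top) ψ ?_ ?_
  · apply isClosed_eq
    · exact ((Lp.fourierTransformₗᵢ (EE ι) ℂ).continuous).comp (dilL hc).continuous
    · exact Continuous.const_smul (M := ℂ) (((dilL (ι := ι) (inv_ne_zero hc)).continuous).comp
        (Lp.fourierTransformₗᵢ (EE ι) ℂ).continuous) (jac ι c : ℂ)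
  · intro f
    rw [SchwartzMap.toLpCLM_apply]
    set g : 𝓢(EE ι, ℂ) := SchwartzMap.compCLMOfContinuousLinearEquiv ℂ
      (ContinuousLinearEquiv.smulLeft (Units.mk0 c hc) : EE ι ≃L[ℝ] EE ι) f with hg
    have hgx : ∀ x, g x = f (c • x) := fun x => rfl
    have h1 : dilL hc (f.toLp 2 volume) = g.toLp 2 volume := by
      apply Lp.ext
      filter_upwards [dilL_coe hc (f.toLp 2 volume), g.coeFn_toLp 2 volume,
        qmp hc (f.coeFn_toLp 2 volume)] with x h2 h3 h4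
      rw [h2, h3, h4, hgx]
    rw [h1, SchwartzMap.toLp_fourier_eq, SchwartzMap.toLp_fourier_eq]
    apply Lp.ext
    filter_upwards [(𝓕 g).coeFn_toLp 2 volume,
      Lp.coeFn_smul (jac ι c : ℂ) (dilL (inv_ne_zero hc) ((𝓕 f).toLp 2 volume : L2E ι)),
      dilL_coe (inv_ne_zero hc) ((𝓕 f).toLp 2 volume : L2E ι),
      qmp (inv_ne_zero hc) ((𝓕 f).coeFn_toLp 2 volume)] with ξ h2 h3 h4 h5
    rw [h2, h3, Pi.smul_apply, h4, h5, smul_eq_mul]
    have h6 := fourier_smul hc (f : EE ι → ℂ) ξ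
    rw [SchwartzMap.fourier_coe, SchwartzMap.fourier_coe]
    exact h6

variable {N : ℕ}

theorem pos_smul (c : ℝ) (x : Cfg N) (i : Fin N) : pos (c • x) i = c • pos x i := by
  ext a
  simp [pos]

theorem kin_dil (α : ℝ) {c : ℝ} (hc : 0 < c) (ψ : Wave N) :
    kin α (dilL hc.ne' ψ) =
      ENNReal.ofReal (jac (Fin N × Fin 3) c * c ^ α) * kin α ψ := by
  have hj := jac_pos (ι := Fin N × Fin 3) hc.ne'
  have hc' : 0 < c⁻¹ := inv_pos.2 hc
  unfold kin
  have h1 : ∫⁻ ξ, ENNReal.ofReal ((∑ i, (2 * Real.pi * ‖pos ξ i‖) ^ α) *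
      ‖(𝓕 (dilL hc.ne' ψ) : Wave N) ξ‖ ^ 2) =
      ∫⁻ ξ : Cfg N, ENNReal.ofReal (jac (Fin N × Fin 3) c ^ 2 * c ^ α) *
        (fun η : Cfg N => ENNReal.ofReal ((∑ i, (2 * Real.pi * ‖pos η i‖) ^ α) *
          ‖(𝓕 ψ : Wave N) η‖ ^ 2)) (c⁻¹ • ξ) := by
    refine lintegral_congr_ae ?_
    rw [fourier_dil hc.ne' ψ]
    filter_upwards [Lp.coeFn_smul (jac (Fin N × Fin 3) c : ℂ)
      (dilL (inv_ne_zero hc.ne') (𝓕 ψ : Wave N)),
      dilL_coe (inv_ne_zero hc.ne') (𝓕 ψ : Wave N)] with ξ h2 h3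
    rw [h2, Pi.smul_apply, h3, ← ENNReal.ofReal_mul (by positivity), norm_smul, mul_pow]
    congr 1
    have h4 : ∀ i, (2 * Real.pi * ‖pos ξ i‖) ^ α =
        c ^ α * (2 * Real.pi * ‖pos (c⁻¹ • ξ) i‖) ^ α := by
      intro i
      rw [pos_smul, norm_smul, Real.norm_of_nonneg hc'.le,
        ← Real.mul_rpow hc.le (by positivity)]
      congr 1
      field_simp
    simp_rw [h4]
    rw [← Finset.mul_sum, Complex.norm_real, Real.norm_of_nonneg hj.le]
    ring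
  rw [h1, lintegral_const_mul' _ _ ENNReal.ofReal_ne_top]
  refine (congrArg _ (lint_smul (ι := Fin N × Fin 3) (inv_ne_zero hc.ne')
    (fun η : Cfg N => ENNReal.ofReal ((∑ i, (2 * Real.pi * ‖pos η i‖) ^ α) *
          ‖(𝓕 ψ : Wave N) η‖ ^ 2)))).trans ?_
  rw [← mul_assoc, ← ENNReal.ofReal_mul (by positivity)]
  congr 2
  have h5 := jac_inv (ι := Fin N × Fin 3) hc.ne'
  calc jac (Fin N × Fin 3) c ^ 2 * c ^ α * jac (Fin N × Fin 3) c⁻¹ =
      jac (Fin N × Fin 3) c * c ^ α * (jac (Fin N × Fin 3) c * jac (Fin N × Fin 3) c⁻¹) := by ring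
    _ = _ := by rw [h5, mul_one]

theorem coul_smul (e : Fin N → ℝ) {c : ℝ} (hc : 0 < c) (x : Cfg N) :
    coul e (c • x) = c⁻¹ * coul e x := by
  unfold coul
  rw [Finset.mul_sum]
  refine Finset.sum_congr rfl fun i _ => ?_
  rw [Finset.mul_sum]
  refine Finset.sum_congr rfl fun j _ => ?_
  split_ifs
  · rw [pos_smul, pos_smul, ← smul_sub, norm_smul, Real.norm_of_nonneg hc.le]
    rw [div_eq_mul_inv, mul_inv, div_eq_mul_inv]
    ring
  · simp

theorem pot_dil (e : Fin N → ℝ) {c : ℝ} (hc : 0 < c) (ψ : Wave N) :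
    pot e (dilL hc.ne' ψ) = jac (Fin N × Fin 3) c * c * pot e ψ := by
  unfold pot
  have h1 : ∫ x, coul e x * ‖(dilL hc.ne' ψ : Wave N) x‖ ^ 2 =
      ∫ x : Cfg N, (fun y => c * (coul e y * ‖ψ y‖ ^ 2)) (c • x) := by
    refine integral_congr_ae ?_
    filter_upwards [dilL_coe hc.ne' ψ] with x hx
    rw [hx, coul_smul e hc]
    field_simp
  rw [h1]
  refine (Measure.integral_comp_smul (volume : Measure (Cfg N))
    (fun y => c * (coul e y * ‖ψ y‖ ^ 2)) c).trans ?_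
  rw [integral_const_mul, smul_eq_mul]
  unfold jac
  ring

theorem norm_dil {c : ℝ} (hc : 0 < c) (ψ : Wave N) :
    ‖dilL hc.ne' ψ‖ ^ 2 = jac (Fin N × Fin 3) c * ‖ψ‖ ^ 2 := dilF_norm hc.ne' ψ

end Pool.Agent.KS6_88.CB
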