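import Pool.Agent.KS6_88.CB.Crit
import Pool.Agent.KS6_88.CB.Dil

set_option autoImplicit false
set_option linter.unusedSectionVars false

noncomputable section

namespace Pool.Agent.KS6_88.CB

open MeasureTheory Function Filter Topology
open scoped ENNReal FourierTransform
open Pool.Agent.T6.H42

variable {N : ℕ}

/-- existence of the dyadic parameter -/
theorem exM (N : ℕ) (hN : 1 ≤ N) : ∃ M : ℕ, 1 ≤ M ∧ (54 : ℝ) * N ≤ 2 ^ M * 8 ^ M ∧
    (2 : ℝ) ^ M ≤ 6 * (N : ℝ) ^ (1 / 4 : ℝ) := by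
  have h16 : ∀ M : ℕ, (16 : ℝ) ^ M = 2 ^ M * 8 ^ M := by
    intro M
    rw [← mul_pow]; norm_num
  refine ⟨Nat.clog 16 (54 * N), Nat.clog_pos (by norm_num) (by omega), ?_, ?_⟩
  · have h1 := Nat.le_pow_clog (b := 16) (by norm_num) (54 * N)
    have h2 : (54 : ℝ) * N ≤ 16 ^ (Nat.clog 16 (54 * N)) := by exact_mod_cast h1
    rwa [h16] at h2
  · have h1 := Nat.pow_pred_clog_lt_self (b := 16) (by norm_num) (x := 54 * N) (by omega)
    have hpos : 0 < Nat.clog 16 (54 * N) := Nat.clog_pos (by norm_num) (by omega)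
    obtain ⟨M, hM⟩ := Nat.exists_eq_succ_of_ne_zero hpos.ne'
    rw [hM] at h1 ⊢
    rw [Nat.pred_succ] at h1
    have h2 : (16 : ℝ) ^ M < 54 * N := by exact_mod_cast h1
    have h3 : (2 : ℝ) ^ M ≤ 3 * (N : ℝ) ^ (1 / 4 : ℝ) := by
      have hN0 : (0 : ℝ) ≤ N := by positivity
      refine le_of_pow_le_pow_left₀ (n := 4) (by norm_num) (by positivity) ?_
      have e1 : ((N : ℝ) ^ (1 / 4 : ℝ)) ^ 4 = N := by
        rw [← Real.rpow_natCast, ← Real.rpow_mul hN0]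
        norm_num
      rw [mul_pow, e1, ← pow_mul, mul_comm M 4, pow_mul]
      norm_num
      linarith
    rw [Nat.succ_eq_add_one, pow_succ]
    linarith

/-- a constant -/
def CF : ℝ := (CBC 1 * (1536 * K1 1) + CE 1) * 6 * C7 0 1

theorem CF_pos : 0 < CF := by
  have h1 := CBC_pos 1
  have h2 := K1_pos 1
  have h3 := CE_pos 1
  have h5 := C5_pos 0
  have h6 := C6_pos 0 1 (by norm_num) (by norm_num)
  have h7 : 0 < C7 0 1 := by unfold C7; positivity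
  unfold CF
  positivity

/-- The inequality with a remainder. -/
theorem weak (hN : 1 ≤ N) : ∃ A : ℝ, 0 ≤ A ∧ ∀ e : Fin N → ℝ, IsCharge e → ∀ ψ : Wave N,
    kin 1 ψ ≠ ⊤ → Integrable (fun x => coul e x * ‖ψ x‖ ^ 2) ∧
      -pot e ψ ≤ A * ‖ψ‖ ^ 2 + CF * (N : ℝ) ^ (1 / 4 : ℝ) * (kin 1 ψ).toReal := by
  obtain ⟨M, hM1, hM2, hM3⟩ := exM N hN
  have hKK := KK_pos 1
  have hK1 := K1_pos 1
  have hCE := CE_pos 1
  have hCBC := CBC_pos 1
  have h5 := C5_pos 0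
  have h6 := C6_pos 0 1 (by norm_num) (by norm_num)
  have hC7 : 0 < C7 0 1 := by unfold C7; positivity
  set A : ℝ := N * (CBC 1 * (1 + 32 * KK 1 * 2 ^ M)) with hA
  refine ⟨A, by positivity, fun e he ψ hψ => ?_⟩
  set φ : HS (Fin N × Fin 3) := toPi ψ with hφ
  have hEk := Ea_kin 0 1 (by norm_num) (by norm_num) ψ
  rw [Real.rpow_one, zero_add] at hEk
  have hsum : ∑ i, Ea 1 2 i φ ≠ ⊤ :=
    ne_top_of_le_ne_top (ENNReal.mul_ne_top ENNReal.ofReal_ne_top hψ) hEk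
  have hfin : ∀ i, Ea 1 2 i φ ≠ ⊤ := fun i =>
    ne_top_of_le_ne_top hsum (Finset.single_le_sum (f := fun i => Ea 1 2 i φ)
      (fun _ _ => zero_le) (Finset.mem_univ i))
  have hint : Integrable fun x => coulR e x * ‖φ x‖ ^ 2 :=
    coulR_int (pairFin1 1 one_pos φ hfin)
  refine ⟨int_toPi ψ e hint, ?_⟩
  have h1 := crit 1 one_pos M M hM1 hM2 e he φ hfin
  rw [pot_toPi] at h1
  have hφ2 : ‖φ‖ₑ ^ 2 = ENNReal.ofReal (‖ψ‖ ^ 2) := by
    rw [enorm_sq_ofReal, hφ, toPi_enorm]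
  have hcoef : CBC 1 * (1536 * K1 1 * 2 ^ M) + CE 1 * 2 ^ M ≤
      (CBC 1 * (1536 * K1 1) + CE 1) * 6 * (N : ℝ) ^ (1 / 4 : ℝ) := by
    calc _ = (CBC 1 * (1536 * K1 1) + CE 1) * 2 ^ M := by ring
      _ ≤ (CBC 1 * (1536 * K1 1) + CE 1) * (6 * (N : ℝ) ^ (1 / 4 : ℝ)) := by gcongr
      _ = _ := by ring
  have h2 : ENNReal.ofReal (-pot e ψ) ≤
      ENNReal.ofReal (A * ‖ψ‖ ^ 2 + CF * (N : ℝ) ^ (1 / 4 : ℝ) * (kin 1 ψ).toReal) := by
    refine h1.trans ?_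
    have hCF := CF_pos
    rw [ENNReal.ofReal_add (p := A * ‖ψ‖ ^ 2) (by positivity) (by positivity),
      ENNReal.ofReal_mul (p := CF * (N : ℝ) ^ (1 / 4 : ℝ)) (by positivity),
      ENNReal.ofReal_toReal hψ, hφ2, ENNReal.ofReal_mul (p := A) (by positivity)]
    refine add_le_add le_rfl ?_
    calc _ ≤ ENNReal.ofReal ((CBC 1 * (1536 * K1 1) + CE 1) * 6 * (N : ℝ) ^ (1 / 4 : ℝ)) *
          (ENNReal.ofReal (C7 0 1) * kin 1 ψ) := by
          gcongr
      _ = _ := by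
          rw [← mul_assoc, ← ENNReal.ofReal_mul (by positivity)]
          congr 2
          unfold CF
          ring
  have hCF := CF_pos
  have h3 : (0 : ℝ) ≤ A * ‖ψ‖ ^ 2 + CF * (N : ℝ) ^ (1 / 4 : ℝ) * (kin 1 ψ).toReal := by
    have := (kin 1 ψ).toReal_nonneg
    positivity
  rwa [ENNReal.ofReal_le_ofReal_iff h3] at h2

/-- **The inequality at the critical exponent.** -/
theorem endpoint (N : ℕ) (e : Fin N → ℝ) (he : IsCharge e) (ψ : Wave N) (hψ : kin 1 ψ ≠ ⊤) :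
    Integrable (fun x => coul e x * ‖ψ x‖ ^ 2) ∧
      -pot e ψ ≤ CF * (N : ℝ) ^ (1 / 4 : ℝ) * (kin 1 ψ).toReal := by
  have hCF := CF_pos
  rcases Nat.eq_zero_or_pos N with h0 | hN
  · subst h0
    have h1 : ∀ x : Cfg 0, coul e x = 0 := fun x => by unfold coul; simp
    refine ⟨by simp [h1], ?_⟩
    unfold pot
    simp only [h1, zero_mul, integral_zero, neg_zero]
    have := (kin 1 ψ).toReal_nonneg
    positivity
  · obtain ⟨A, hA, H⟩ := weak (N := N) hN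
    refine ⟨(H e he ψ hψ).1, ?_⟩
    set K : ℝ := (kin 1 ψ).toReal with hK
    have hc : ∀ c : ℝ, 0 < c → -pot e ψ ≤ A * ‖ψ‖ ^ 2 * c⁻¹ + CF * (N : ℝ) ^ (1 / 4 : ℝ) * K := by
      intro c hc
      have hj := jac_pos (ι := Fin N × Fin 3) hc.ne'
      have h1 := kin_dil 1 hc ψ
      rw [Real.rpow_one] at h1
      have h2 : kin 1 (dilL hc.ne' ψ) ≠ ⊤ := by
        rw [h1]
        exact ENNReal.mul_ne_top ENNReal.ofReal_ne_top hψ
      have h3 := (H e he (dilL hc.ne' ψ) h2).2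
      rw [pot_dil e hc, norm_dil hc, h1, ENNReal.toReal_mul,
        ENNReal.toReal_ofReal (by positivity)] at h3
      have h4 : (jac (Fin N × Fin 3) c * c) * (-pot e ψ) ≤
          (jac (Fin N × Fin 3) c * c) *
            (A * ‖ψ‖ ^ 2 * c⁻¹ + CF * (N : ℝ) ^ (1 / 4 : ℝ) * K) := by
        calc _ = -(jac (Fin N × Fin 3) c * c * pot e ψ) := by ring
          _ ≤ _ := h3
          _ = _ := by
            rw [hK]
            field_simp
      exact le_of_mul_le_mul_left h4 (by positivity)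
    have ht : Tendsto (fun c : ℝ => A * ‖ψ‖ ^ 2 * c⁻¹ + CF * (N : ℝ) ^ (1 / 4 : ℝ) * K) atTop
        (𝓝 (A * ‖ψ‖ ^ 2 * 0 + CF * (N : ℝ) ^ (1 / 4 : ℝ) * K)) :=
      (tendsto_inv_atTop_zero.const_mul _).add tendsto_const_nhds
    rw [mul_zero, zero_add] at ht
    refine ge_of_tendsto ht ?_
    filter_upwards [eventually_gt_atTop 0] with c h using hc c h

end Pool.Agent.KS6_88.CB
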