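import Pool.Graph.R_pool_sql_team_seeded_47a924f7.T6.H42U.NBodyMain
import Pool.Graph.R_pool_sql_team_seeded_47a924f7.T6.H42U.ModesExist

/-!
# Trial states with large potential energy
-/

set_option autoImplicit false
set_option linter.unusedSectionVars false

noncomputable section

namespace Pool.Agent.KS6_88.CB

open MeasureTheory
open scoped ContDiff FourierTransform SchwartzMap ComplexConjugate ENNReal
open Pool.Agent.T6.H42 Pool.Agent.T6.H42U

variable {D : Type*} [DecidableEq D] [Fintype D]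

/-- **The energy of the trial state.** -/
theorem nbody2 {N : ℕ} (hN : 2 ≤ N) (hM : Fintype.card D ≤ N) {f : Option D → E3 → ℂ}
    (hf : Modes f) {α : ℝ} (hα : 0 ≤ α) {k0 kG w : ℝ} (hk0 : 0 ≤ k0) (hkG : 0 ≤ kG) (hw0 : 0 ≤ w)
    (h0 : kf α (f none) (f none) = k0) (hG : ∀ B, kf α (f (some B)) (f (some B)) = kG)
    (hw : ∀ B, cf (gg f B) (gg f B) = w) :
    ∃ e : Fin N → ℝ, IsCharge e ∧ ∃ ψ : Wave N,
      ‖ψ‖ = 1 ∧ kin α ψ ≠ ⊤ ∧ Integrable (fun x => coul e x * ‖ψ x‖ ^ 2) ∧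
      (kin α ψ).toReal ≤ 2 * N * k0 + kG * Fintype.card D / 8 ∧
      pot e ψ ≤ -(N * w * Fintype.card D / 64) := by
  have hN0 : (0 : ℝ) < N := by exact_mod_cast (by omega : 0 < N)
  have hN2 : (2 : ℝ) ≤ N := by exact_mod_cast hN
  set ε : ℝ := Real.sqrt (1 / (8 * N)) with hεdef
  have hε : ε ^ 2 = 1 / (8 * N) := Real.sq_sqrt (by positivity)
  obtain ⟨b, hb⟩ := exists_charge (N := N) hf ε hw
  set S : 𝓢(Cfg N, ℂ) := SS hf ε b with hSdef
  set Z : ℝ := ZZ D ε N with hZdef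
  have hZ : 0 < Z := ZZ_pos hN hM hε N
  set c : ℝ := (Real.sqrt Z)⁻¹ with hcdef
  have hc : c ^ 2 = Z⁻¹ := by
    rw [hcdef, inv_pow, Real.sq_sqrt hZ.le]
  set T : 𝓢(Cfg N, ℂ) := (c : ℂ) • S with hTdef
  have hT : ∀ x, ‖T x‖ ^ 2 = c ^ 2 * ‖S x‖ ^ 2 := by
    intro x
    rw [hTdef, smul_apply, norm_smul, mul_pow, Complex.norm_real, Real.norm_eq_abs,
      sq_abs]
  have hFT : ∀ ξ, ‖(𝓕 T : 𝓢(Cfg N, ℂ)) ξ‖ ^ 2 = c ^ 2 * ‖(𝓕 S : 𝓢(Cfg N, ℂ)) ξ‖ ^ 2 := by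
    intro ξ
    have : (𝓕 T : 𝓢(Cfg N, ℂ)) = (c : ℂ) • (𝓕 S : 𝓢(Cfg N, ℂ)) := by
      rw [hTdef, FourierTransform.fourier_smul]
    rw [this, smul_apply, norm_smul, mul_pow, Complex.norm_real, Real.norm_eq_abs,
      sq_abs]
  have hkin : kin α (T.toLp 2 : Wave N) = ENNReal.ofReal (c ^ 2 * (N * KK D ε k0 kG (N - 1))) := by
    have h1 : (fun ξ : Cfg N => (∑ i, wt α (pos ξ i)) * ‖(𝓕 T : 𝓢(Cfg N, ℂ)) ξ‖ ^ 2)
        = fun ξ => c ^ 2 * ((∑ i, wt α (pos ξ i)) * ‖(𝓕 S : 𝓢(Cfg N, ℂ)) ξ‖ ^ 2) := by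
      funext ξ
      rw [hFT]
      ring
    rw [kin_toLp T (by rw [h1]; exact (SS_kin_integrable hf ε b hα).const_mul _), h1,
      integral_const_mul, SS_kin hf ε b hα h0 hG]
  have hae : (fun x => coul (fun i => sg (b i)) x * ‖(T.toLp 2 : Wave N) x‖ ^ 2)
      =ᵐ[volume] fun x => c ^ 2 * ∑ i : Fin N, ∑ j : Fin N, if i < j then
        sg (b i) * sg (b j) * (‖pos x i - pos x j‖⁻¹ * ‖S x‖ ^ 2) else 0 := by
    filter_upwards [T.coeFn_toLp 2] with x hx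
    rw [hx, hT]
    unfold coul
    rw [Finset.sum_mul, Finset.mul_sum]
    apply Finset.sum_congr rfl
    intro i _
    rw [Finset.sum_mul, Finset.mul_sum]
    apply Finset.sum_congr rfl
    intro j _
    split_ifs with hij
    · ring
    · ring
  have hI : ∀ i j : Fin N, Integrable (fun x : Cfg N => if i < j then
        sg (b i) * sg (b j) * (‖pos x i - pos x j‖⁻¹ * ‖S x‖ ^ 2) else 0) := by
    intro i j
    split_ifs with hij
    · exact (SS_pair hf ε b hij.ne).1.const_mul _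
    · exact integrable_zero _ _ _
  have hI2 : Integrable (fun x : Cfg N => c ^ 2 * ∑ i : Fin N, ∑ j : Fin N, if i < j then
        sg (b i) * sg (b j) * (‖pos x i - pos x j‖⁻¹ * ‖S x‖ ^ 2) else 0) :=
    (integrable_finsetSum _ fun i _ => integrable_finsetSum _ fun j _ => hI i j).const_mul _
  have hpot : pot (fun i => sg (b i)) (T.toLp 2 : Wave N) = c ^ 2 * PE hf ε b := by
    unfold pot
    rw [integral_congr_ae hae, integral_const_mul,
      integral_finsetSum _ fun i _ => integrable_finsetSum _ fun j _ => hI i j]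
    congr 1
    unfold PE
    apply Finset.sum_congr rfl
    intro i _
    rw [integral_finsetSum _ fun j _ => hI i j]
    apply Finset.sum_congr rfl
    intro j _
    split_ifs with hij
    · rw [integral_const_mul]
    · simp
  refine ⟨fun i => sg (b i), ?_, (T.toLp 2 : Wave N), ?_, ?_, ?_, ?_⟩
  · intro i
    change sg (b i) = 1 ∨ sg (b i) = -1
    cases b i <;> simp [sg]
  · have h1 : ‖(T.toLp 2 : Wave N)‖ ^ 2 = 1 := by
      rw [norm_toLp_sq]
      simp_rw [hT]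
      rw [integral_const_mul, SS_norm, hc]
      exact inv_mul_cancel₀ hZ.ne'
    have h2 : 0 ≤ ‖(T.toLp 2 : Wave N)‖ := norm_nonneg _
    nlinarith
  · rw [hkin]
    exact ENNReal.ofReal_ne_top
  · exact (integrable_congr hae).mpr hI2
  · rw [hkin, hpot, ENNReal.toReal_ofReal', hc]
    have h1 := KK_le (D := D) hN hM hε hk0 hkG
    have h2 := PP_ge (D := D) hN hM hε
    have h3 : (0 : ℝ) ≤ Fintype.card D := Nat.cast_nonneg _
    have h4 : PE hf ε b ≤ -(N * w * Fintype.card D / 64) * Z := by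
      refine hb.trans ?_
      have e1 : -((N : ℝ) * (N - 1)) * ε ^ 2 * w * PP D ε (N - 2)
          = -((N - 1) / 8 * w) * PP D ε (N - 2) := by
        rw [hε]
        field_simp
      rw [e1]
      have e2 : (N : ℝ) / 16 * w ≤ (N - 1) / 8 * w :=
        mul_le_mul_of_nonneg_right (by linarith) hw0
      have e3 : (N : ℝ) / 16 * w * ((Fintype.card D / 4) * Z) ≤ (N - 1) / 8 * w * PP D ε (N - 2) := by
        apply mul_le_mul e2 h2
        · positivity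
        · have : (0 : ℝ) ≤ N - 1 := by linarith
          positivity
      linarith
    have h5 : 0 < Z⁻¹ := inv_pos.mpr hZ
    have hR : 0 ≤ (2 * N * k0 + kG * Fintype.card D / 8) := by positivity
    have h6 : Z⁻¹ * (N * KK D ε k0 kG (N - 1)) ≤ 2 * N * k0 + kG * Fintype.card D / 8 := by
      rw [inv_mul_le_iff₀ hZ]
      linarith
    have h7 : Z⁻¹ * PE hf ε b ≤ -(N * w * Fintype.card D / 64) := by
      rw [inv_mul_le_iff₀ hZ]
      linarith
    have h8 : max (Z⁻¹ * (N * KK D ε k0 kG (N - 1))) 0 ≤ 2 * N * k0 + kG * Fintype.card D / 8 :=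
      max_le h6 hR
    exact ⟨h8, h7⟩


/-- Trial states at the critical exponent. -/
theorem sharp1 : ∃ c : ℝ, 0 < c ∧ ∀ N : ℕ, 2 ≤ N → ∃ e : Fin N → ℝ, IsCharge e ∧
    ∃ ψ : Wave N, ‖ψ‖ = 1 ∧ kin 1 ψ ≠ ⊤ ∧ Integrable (fun x => coul e x * ‖ψ x‖ ^ 2) ∧
      0 < -pot e ψ ∧ c * (N : ℝ) ^ (1 / 4 : ℝ) * (kin 1 ψ).toReal ≤ -pot e ψ := by
  obtain ⟨a, c, kΦ, kΓ, ha, hc, hkΦ, hkΓ, hmodes⟩ := modes_exist 1
  set B : ℝ := 2 * kΦ + kΓ / 8 + 1 with hB
  have hB0 : 0 < B := by positivity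
  refine ⟨a ^ 2 * c / (128 * B), by positivity, fun N hN => ?_⟩
  have hN1 : (1 : ℝ) ≤ N := by exact_mod_cast (by omega : 1 ≤ N)
  have hN0 : (0 : ℝ) < N := by linarith
  set q : ℝ := (N : ℝ) ^ (1 / 4 : ℝ) with hq
  have hq0 : 0 < q := by positivity
  have hq1 : 1 ≤ q := Real.one_le_rpow hN1 (by norm_num)
  have hq4 : q ^ 4 = N := by
    rw [hq, ← Real.rpow_natCast, ← Real.rpow_mul hN0.le]
    norm_num
  obtain ⟨n, hn⟩ : ∃ n : ℕ, n = ⌊q⌋₊ := ⟨_, rfl⟩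
  have hn_le : (n : ℝ) ≤ q := by rw [hn]; exact Nat.floor_le hq0.le
  have hn_gt : q < n + 1 := by rw [hn]; exact Nat.lt_floor_add_one _
  have hn1 : (1 : ℝ) ≤ n := by
    have : 1 ≤ n := by rw [hn, Nat.one_le_floor_iff]; exact hq1
    exact_mod_cast this
  have hn0 : (0 : ℝ) < n := by linarith
  have hn4 : (n : ℝ) ^ 4 ≤ N := by
    rw [← hq4]; gcongr
  have hn3 : (n : ℝ) ^ 3 ≤ n ^ 4 := pow_le_pow_right₀ hn1 (by norm_num)
  obtain ⟨f, hf, hf0, hfG, hfw⟩ := hmodes n (1 / n) 1 (by positivity) one_pos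
    (by rw [mul_one_div_cancel hn0.ne'])
  have hcardR : ((Fintype.card (Fin 3 → Fin n) : ℕ) : ℝ) = (n : ℝ) ^ 3 := by
    rw [Fintype.card_fun, Fintype.card_fin, Fintype.card_fin]
    push_cast
    rfl
  have hcard : Fintype.card (Fin 3 → Fin n) ≤ N := by
    have : ((Fintype.card (Fin 3 → Fin n) : ℕ) : ℝ) ≤ N := by rw [hcardR]; linarith
    exact_mod_cast this
  have e0 : (1 : ℝ) ^ (-(1 : ℝ)) * kΦ = kΦ := by rw [Real.one_rpow, one_mul]
  have eG : (1 / (n : ℝ)) ^ (-(1 : ℝ)) * kΓ = n * kΓ := by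
    rw [Real.rpow_neg_one, one_div, inv_inv]
  have ew : a ^ 2 * ((1 : ℝ) ^ 3)⁻¹ * (1 / (n : ℝ)) ^ 2 * c = a ^ 2 * c / (n : ℝ) ^ 2 := by
    field_simp
  rw [e0] at hf0
  rw [eG] at hfG
  rw [ew] at hfw
  obtain ⟨e, he, ψ, h1, h2, h3, h4, h5⟩ := nbody2 (D := Fin 3 → Fin n) hN hcard hf
    (α := 1) zero_le_one (k0 := kΦ) (kG := n * kΓ) (w := a ^ 2 * c / (n : ℝ) ^ 2)
    (by positivity) (by positivity) (by positivity) hf0 hfG hfw
  rw [hcardR] at h4 h5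
  have h6 : (kin 1 ψ).toReal ≤ N * B := by
    have : (n : ℝ) * kΓ * n ^ 3 / 8 ≤ N * (kΓ / 8) := by
      have e1 : (n : ℝ) * kΓ * n ^ 3 / 8 = n ^ 4 * (kΓ / 8) := by ring
      rw [e1]
      gcongr
    rw [hB]
    linarith
  have h7 : N * (a ^ 2 * c / (n : ℝ) ^ 2) * (n : ℝ) ^ 3 / 64 = N * (a ^ 2 * c) * n / 64 := by
    field_simp
  rw [h7] at h5
  have h8 : q ≤ 2 * n := by linarith
  refine ⟨e, he, ψ, h1, h2, h3, ?_, ?_⟩
  · have : 0 < N * (a ^ 2 * c) * n / 64 := by positivity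
    linarith
  · calc a ^ 2 * c / (128 * B) * q * (kin 1 ψ).toReal ≤
        a ^ 2 * c / (128 * B) * (2 * n) * (N * B) := by gcongr
      _ = N * (a ^ 2 * c) * n / 64 := by
          field_simp
          norm_num
      _ ≤ -pot e ψ := by linarith

end Pool.Agent.KS6_88.CB
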