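import Pool.Agent.KS6_88.CB.Chg
import Pool.Agent.KS6_88.CB.Up1
import Pool.Graph.R_pool_sql_team_seeded_47a924f7.T6.H42P.Par
import Pool.Graph.R_pool_sql_team_seeded_47a924f7.T6.H42U.Upper

/-!
# The scale invariant form for all exponents
-/

set_option autoImplicit false
set_option linter.unusedSectionVars false

noncomputable section

namespace Pool.Agent.KS6_88.CB

open MeasureTheory Function Filter Topology
open scoped ENNReal FourierTransform
open Pool.Agent.T6.H42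

variable {N : ℕ}

/-- the exponent of the scale invariant inequality -/
def kap (α : ℝ) : ℝ := (α ^ 2 + 3 * α - 3) / (α * (α + 3))

theorem kap_eq {α : ℝ} (hα : 1 < α) : gam α * (1 - 1 / α) = kap α := by
  unfold gam kap
  have h1 : α ≠ 0 := by linarith
  have h2 : α - 1 ≠ 0 := by
    intro h; linarith
  have h3 : α + 3 ≠ 0 := by linarith
  field_simp

/-- from the energy bound to the scale invariant bound -/
theorem virial_up {α A : ℝ} (hα : 1 < α) (hA : 0 < A) (e : Fin N → ℝ)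
    (H : ∀ ψ : Wave N, kin α ψ ≠ ⊤ → -(A * ‖ψ‖ ^ 2) ≤ (kin α ψ).toReal + pot e ψ)
    (ψ : Wave N) (hψ : kin α ψ ≠ ⊤) (hn : ‖ψ‖ = 1) :
    -pot e ψ ≤ 2 * A ^ (1 - 1 / α) * (kin α ψ).toReal ^ (1 / α) := by
  set K : ℝ := (kin α ψ).toReal with hK
  have hK0 : 0 ≤ K := ENNReal.toReal_nonneg
  have hα0 : 0 < α := by linarith
  have hc : ∀ c : ℝ, 0 < c → -pot e ψ ≤ A * c⁻¹ + c ^ (α - 1) * K := by
    intro c hc
    have hj := jac_pos (ι := Fin N × Fin 3) hc.ne'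
    have hcα : 0 < c ^ α := Real.rpow_pos_of_pos hc α
    have h1 := kin_dil α hc ψ
    have h2 : kin α (dilL hc.ne' ψ) ≠ ⊤ := by
      rw [h1]
      exact ENNReal.mul_ne_top ENNReal.ofReal_ne_top hψ
    have h3 := H (dilL hc.ne' ψ) h2
    rw [pot_dil e hc, norm_dil hc, h1, ENNReal.toReal_mul,
      ENNReal.toReal_ofReal (by positivity), hn] at h3
    have h4 : (jac (Fin N × Fin 3) c * c) * (-pot e ψ) ≤
        (jac (Fin N × Fin 3) c * c) * (A * c⁻¹ + c ^ (α - 1) * K) := by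
      have e1 : c ^ (α - 1) = c ^ α / c := by rw [Real.rpow_sub_one hc.ne']
      rw [e1]
      calc _ = -(jac (Fin N × Fin 3) c * c * pot e ψ) := by ring
        _ ≤ A * (jac (Fin N × Fin 3) c * 1 ^ 2) + jac (Fin N × Fin 3) c * c ^ α * K := by
            linarith
        _ = _ := by field_simp
    exact le_of_mul_le_mul_left h4 (by positivity)
  rcases hK0.eq_or_lt with h0 | h0
  · have ht : Tendsto (fun c : ℝ => A * c⁻¹ + c ^ (α - 1) * K) atTop (𝓝 (A * 0)) := by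
      rw [← h0]
      simp only [mul_zero, add_zero]
      have h7 : Tendsto (fun c : ℝ => A * c⁻¹) atTop (𝓝 (A * 0)) :=
        tendsto_inv_atTop_zero.const_mul A
      simpa using h7
    rw [mul_zero] at ht
    have h1 : -pot e ψ ≤ 0 := by
      refine ge_of_tendsto ht ?_
      filter_upwards [eventually_gt_atTop 0] with c h using hc c h
    refine h1.trans ?_
    have := Real.rpow_nonneg hK0 (1 / α)
    positivity
  · set c : ℝ := (A / K) ^ (1 / α) with hcdef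
    have hc0 : 0 < c := by positivity
    have h1 := hc c hc0
    refine h1.trans (le_of_eq ?_)
    have e1 : A * c⁻¹ = A ^ (1 - 1 / α) * K ^ (1 / α) := by
      rw [hcdef, Real.div_rpow hA.le hK0, inv_div, Real.rpow_sub hA, Real.rpow_one]
      ring
    have e2 : c ^ (α - 1) * K = A ^ (1 - 1 / α) * K ^ (1 / α) := by
      rw [hcdef, ← Real.rpow_mul (by positivity)]
      have e3 : 1 / α * (α - 1) = 1 - 1 / α := by field_simp
      rw [e3, Real.div_rpow hA.le hK0, Real.rpow_sub h0, Real.rpow_one]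
      have : 0 < K ^ (1 / α) := by positivity
      field_simp
    rw [e1, e2]
    ring

/-- from the energy bound to the scale invariant bound, for the trial state -/
theorem virial_low {α x K P : ℝ} (hα : 1 < α) (hx : 0 < x) (hK : 0 ≤ K) (h : K + P ≤ -x) :
    x ^ (1 - 1 / α) * K ^ (1 / α) ≤ -P := by
  have hα0 : 0 < α := by linarith
  have h1 : 0 ≤ 1 / α := by positivity
  have h2 : 1 / α ≤ 1 := by rw [div_le_one hα0]; exact hα.le
  have h3 := Real.geom_mean_le_arith_mean2_weighted (w₁ := 1 - 1 / α) (w₂ := 1 / α)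
    (by linarith) h1 hx.le hK (by ring)
  have h4 : (1 - 1 / α) * x ≤ 1 * x := by
    apply mul_le_mul_of_nonneg_right _ hx.le
    linarith
  have h5 : 1 / α * K ≤ 1 * K := mul_le_mul_of_nonneg_right h2 hK
  linarith

/-- The energy lower bound of the library. -/
theorem lowerE (α : ℝ) (hα : 1 < α) : ∃ C : ℝ, 0 < C ∧ ∃ N0 : ℕ, ∀ N : ℕ, N0 ≤ N →
    ∀ e : Fin N → ℝ, IsCharge e → ∀ ψ : Wave N, kin α ψ ≠ ⊤ →
      Integrable (fun x => coul e x * ‖ψ x‖ ^ 2) ∧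
        -(C * (N : ℝ) ^ gam α * ‖ψ‖ ^ 2) ≤ (kin α ψ).toReal + pot e ψ := by
  have hk : α < 2 * ((⌈α⌉₊ : ℝ) + 1) := by
    have := Nat.le_ceil α
    linarith
  have hC7 : 0 < C7 ⌈α⌉₊ α := by
    have h5 := C5_pos ⌈α⌉₊
    have h6 := C6_pos ⌈α⌉₊ α (by linarith) hk
    unfold C7
    positivity
  exact lower_of_par α hα ⌈α⌉₊ hk
    (Pool.Agent.T6.H42P.params_exist α hα (⌈α⌉₊ + 1) (Nat.succ_pos _) _ (inv_pos.2 hC7))

/-- The exponents above the critical one. -/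
theorem super (α : ℝ) (hα : 1 < α) : ∃ c C : ℝ, 0 < c ∧ 0 < C ∧ ∃ N0 : ℕ, ∀ N : ℕ, N0 ≤ N →
    (-(C * (N : ℝ) ^ gam α) ≤ E0 α N ∧ E0 α N ≤ -(c * (N : ℝ) ^ gam α) ∧
      (energies α N).Nonempty ∧ BddBelow (energies α N)) ∧
    (∀ e : Fin N → ℝ, (∀ i, |e i| ≤ 1) → ∀ ψ : Wave N, ‖ψ‖ = 1 → kin α ψ ≠ ⊤ →
      Integrable (fun x => coul e x * ‖ψ x‖ ^ 2) ∧
      -pot e ψ ≤ C * (N : ℝ) ^ kap α * (kin α ψ).toReal ^ (1 / α)) ∧
    (∃ e : Fin N → ℝ, IsCharge e ∧ ∃ ψ : Wave N, ‖ψ‖ = 1 ∧ kin α ψ ≠ ⊤ ∧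
      Integrable (fun x => coul e x * ‖ψ x‖ ^ 2) ∧ 0 < -pot e ψ ∧
      c * (N : ℝ) ^ kap α * (kin α ψ).toReal ^ (1 / α) ≤ -pot e ψ) := by
  obtain ⟨C, hC, N1, hlow⟩ := lowerE α hα
  obtain ⟨c, hc, N2, hup⟩ := Pool.Agent.T6.H42U.upper α hα
  set C' : ℝ := max C (2 * C ^ (1 - 1 / α)) with hC'
  set c' : ℝ := min c (c ^ (1 - 1 / α)) with hc'
  refine ⟨c', C', lt_min hc (by positivity), lt_max_of_lt_left hC,
    max (max N1 N2) 1, fun N hN => ?_⟩
  have hN1 : N1 ≤ N := ((le_max_left _ _).trans (le_max_left _ _)).trans hN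
  have hN2 : N2 ≤ N := ((le_max_right _ _).trans (le_max_left _ _)).trans hN
  have hN3 : 1 ≤ N := (le_max_right _ _).trans hN
  have hNp : (0 : ℝ) < N := by exact_mod_cast hN3
  have hg : 0 < (N : ℝ) ^ gam α := Real.rpow_pos_of_pos hNp _
  have hkp : 0 < (N : ℝ) ^ kap α := Real.rpow_pos_of_pos hNp _
  have hpow : ∀ x : ℝ, 0 < x → (x * (N : ℝ) ^ gam α) ^ (1 - 1 / α) =
      x ^ (1 - 1 / α) * (N : ℝ) ^ kap α := by
    intro x hx
    rw [Real.mul_rpow hx.le hg.le, ← Real.rpow_mul hNp.le, kap_eq hα]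
  obtain ⟨e, he, ψ, hψ, hkin, hint, hε⟩ := hup N hN2
  have hmem : (kin α ψ).toReal + pot e ψ ∈ energies α N := ⟨e, he, ψ, hψ, hkin, hint, rfl⟩
  have hlb : ∀ ε ∈ energies α N, -(C' * (N : ℝ) ^ gam α) ≤ ε := by
    rintro ε ⟨e, he, ψ, hψ, hkin, -, rfl⟩
    have h := (hlow N hN1 e he ψ hkin).2
    rw [hψ, one_pow, mul_one] at h
    have h2 : C * (N : ℝ) ^ gam α ≤ C' * (N : ℝ) ^ gam α := by
      gcongr
      exact le_max_left _ _
    linarith
  refine ⟨⟨le_csInf ⟨_, hmem⟩ hlb, ?_, ⟨_, hmem⟩, ⟨_, hlb⟩⟩, ?_, ?_⟩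
  · refine (csInf_le ⟨_, hlb⟩ hmem).trans (hε.trans ?_)
    have h2 : c' * (N : ℝ) ^ gam α ≤ c * (N : ℝ) ^ gam α := by
      gcongr
      exact min_le_left _ _
    linarith
  · intro e he ψ hn hψ
    have hψ1 := kin_one α hα.le ψ hψ
    refine ⟨int_all ψ hψ1 e, ?_⟩
    refine real_charges ψ hψ1 _ (fun s hs => ?_) e he
    have h1 := virial_up hα (A := C * (N : ℝ) ^ gam α) (by positivity) s
      (fun ψ hψ => (hlow N hN1 s hs ψ hψ).2) ψ hψ hn
    rw [hpow C hC] at h1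
    refine h1.trans ?_
    have h2 : 0 ≤ (kin α ψ).toReal ^ (1 / α) := Real.rpow_nonneg ENNReal.toReal_nonneg _
    calc 2 * (C ^ (1 - 1 / α) * (N : ℝ) ^ kap α) * (kin α ψ).toReal ^ (1 / α) =
        (2 * C ^ (1 - 1 / α)) * (N : ℝ) ^ kap α * (kin α ψ).toReal ^ (1 / α) := by ring
      _ ≤ _ := by
          gcongr
          exact le_max_right _ _
  · refine ⟨e, he, ψ, hψ, hkin, hint, ?_, ?_⟩
    · have h1 : 0 < c * (N : ℝ) ^ gam α := by positivity
      have h2 : 0 ≤ (kin α ψ).toReal := ENNReal.toReal_nonneg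
      linarith
    · have h1 := virial_low hα (x := c * (N : ℝ) ^ gam α) (by positivity)
        (ENNReal.toReal_nonneg (a := kin α ψ)) (P := pot e ψ) (by linarith)
      rw [hpow c hc] at h1
      refine le_trans ?_ h1
      have h2 : 0 ≤ (kin α ψ).toReal ^ (1 / α) := Real.rpow_nonneg ENNReal.toReal_nonneg _
      gcongr
      exact min_le_right _ _

end Pool.Agent.KS6_88.CB
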