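import Pool.Graph.R_pool_sql_team_seeded_47a924f7.T6.H42.StepC2

set_option autoImplicit false
set_option linter.unusedSectionVars false

noncomputable section

namespace Pool.Agent.KS6_88.CB

open MeasureTheory Function Filter Topology
open scoped ENNReal
open Pool.Agent.T6.H42

variable {N : ℕ} {θ : ℕ → ℝ} {m0 : ℕ}

/-- a constant -/
def C1 (k : ℕ) : ℝ := 128 * K1 k

/-- The short range estimate at the critical exponent: the weights `2^m` suffice. -/
theorem short1 (k : ℕ) (hk : 0 < k) {i j : Fin N} (hij : j ≠ i) (v : HS (Fin N × Fin 3))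
    {m1 n0 : ℕ} (h : m1 ≤ n0) :
    ∫⁻ x, (if ‖pt x i - pt x j‖ < 1 / 2 ^ n0 then ENNReal.ofReal (1 / ‖pt x i - pt x j‖) else 0) *
        ‖v x‖ₑ ^ 2 ≤
      ENNReal.ofReal (16 / 3 * KK k * 8 ^ m1 / 4 ^ n0) * ‖v‖ₑ ^ 2 +
      ENNReal.ofReal (C1 k) *
        ∑' m, (if m1 ≤ m then ENNReal.ofReal (2 ^ m) * ‖v - PP k m i v‖ₑ ^ 2 else 0) := by
  have hK1 := K1_pos k
  have hKK := KK_pos k
  -- one radius
  have hone : ∀ n, n0 ≤ n → ‖gP i j (1 / 2 ^ n) v‖ₑ ^ 2 ≤
      ENNReal.ofReal (2 * KK k * 8 ^ m1 / 8 ^ n) * ‖v‖ₑ ^ 2 +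
      ∑' m, (if m1 ≤ m ∧ m ≤ n then ENNReal.ofReal (32 * K1 k / 4 ^ n * 4 ^ m) *
        ‖v - PP k m i v‖ₑ ^ 2 else 0) := by
    intro n hn
    have h1 := pair_bound k hk hij v 4 (by norm_num) (by norm_num) (h.trans hn)
    have h2 := ENNReal.ofReal_le_ofReal h1
    rw [enorm_sq_ofReal'] at h2
    refine h2.trans ?_
    rw [ENNReal.ofReal_add (by positivity)
      (mul_nonneg (by norm_num) (mul_nonneg (by norm_num; positivity)
        (Finset.sum_nonneg fun m _ => by positivity)))]
    refine add_le_add (le_of_eq ?_) ?_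
    · rw [← enorm_sq_ofReal', ← ENNReal.ofReal_mul (by positivity)]
      congr 1; ring
    · have e1 : 2 * (8 * K1 k * (1 - (4 : ℝ) / 8)⁻¹ / 4 ^ n *
          ∑ m ∈ Finset.Icc m1 n, 4 ^ m * ‖v - PP k m i v‖ ^ 2) =
          ∑ m ∈ Finset.Icc m1 n, (32 * K1 k / 4 ^ n * 4 ^ m) * ‖v - PP k m i v‖ ^ 2 := by
        rw [Finset.mul_sum, Finset.mul_sum]
        refine Finset.sum_congr rfl fun m _ => ?_
        norm_num
        ring
      rw [e1, ENNReal.ofReal_sum_of_nonneg (fun m _ => by positivity)]
      refine le_trans (le_of_eq ?_) (ENNReal.sum_le_tsum (Finset.Icc m1 n))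
      refine Finset.sum_congr rfl fun m hm => ?_
      rw [Finset.mem_Icc] at hm
      rw [if_pos hm, ENNReal.ofReal_mul (by positivity), enorm_sq_ofReal']
  have hms : ∀ n : ℕ, Measurable fun x : Fin N × Fin 3 → ℝ =>
      (if ‖pt x i - pt x j‖ < 1 / 2 ^ n then (1 : ℝ≥0∞) else 0) := fun n =>
    Measurable.ite (meas_pset i j _) measurable_const measurable_const
  calc _ ≤ ∫⁻ x, (∑' n : ℕ, (if n0 ≤ n then ENNReal.ofReal (2 ^ (n + 1)) else 0) *
        (if ‖pt x i - pt x j‖ < 1 / 2 ^ n then 1 else 0)) * ‖v x‖ₑ ^ 2 := by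
        refine lintegral_mono fun x => ?_
        gcongr
        exact dyadic_inv _ (norm_nonneg _) n0
    _ = ∑' n : ℕ, (if n0 ≤ n then ENNReal.ofReal (2 ^ (n + 1)) else 0) *
        ‖gP i j (1 / 2 ^ n) v‖ₑ ^ 2 := by
        simp_rw [← ENNReal.tsum_mul_right]
        rw [lintegral_tsum]
        · refine tsum_congr fun n => ?_
          simp_rw [mul_assoc]
          have hmm : Measurable fun x : Fin N × Fin 3 → ℝ =>
              (if ‖pt x i - pt x j‖ < 1 / 2 ^ n then (1 : ℝ≥0∞) else 0) * ‖v x‖ₑ ^ 2 :=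
            (hms n).mul ((meas_coe v).enorm.pow_const 2)
          rw [lintegral_const_mul _ hmm]
          congr 1
          unfold gP
          rw [ind_sq]
          unfold wn
          refine lintegral_congr fun x => ?_
          congr 1
        · intro n
          exact (((hms n).const_mul _).mul ((meas_coe v).enorm.pow_const 2)).aemeasurable
    _ ≤ ∑' n : ℕ, ((if n0 ≤ n then ENNReal.ofReal (4 * KK k * 8 ^ m1 * (1 / 4) ^ n) else 0) *
        ‖v‖ₑ ^ 2 + ∑' m, (if m1 ≤ m then (ENNReal.ofReal (4 ^ m) * ‖v - PP k m i v‖ₑ ^ 2) *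
          (if m ≤ n then ENNReal.ofReal (64 * K1 k * (1 / 2) ^ n) else 0) else 0)) := by
        refine ENNReal.tsum_le_tsum fun n => ?_
        split_ifs with hn
        · refine (mul_le_mul_right (hone n hn) _).trans ?_
          rw [mul_add, ← mul_assoc, ← ENNReal.ofReal_mul (by positivity)]
          refine add_le_add (le_of_eq ?_) (le_of_eq ?_)
          · congr 2
            rw [pow_succ, div_pow, one_pow]
            have h8 : (8 : ℝ) ^ n = 2 ^ n * 4 ^ n := by rw [← mul_pow]; norm_num
            rw [h8]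
            field_simp
            ring
          · rw [← ENNReal.tsum_mul_left]
            refine tsum_congr fun m => ?_
            by_cases hm : m1 ≤ m
            · by_cases hmn : m ≤ n
              · rw [if_pos ⟨hm, hmn⟩, if_pos hm, if_pos hmn, ← mul_assoc,
                  ← ENNReal.ofReal_mul (by positivity), mul_right_comm,
                  ← ENNReal.ofReal_mul (by positivity)]
                congr 2
                rw [pow_succ, div_pow, one_pow]
                have h8 : (4 : ℝ) ^ n = 2 ^ n * 2 ^ n := by rw [← mul_pow]; norm_num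
                rw [h8]
                field_simp
                ring
              · rw [if_neg (fun h' => hmn h'.2), if_pos hm, if_neg hmn]; simp
            · rw [if_neg (fun h' => hm h'.1), if_neg hm]; simp
        · simp
    _ ≤ _ := by
        rw [ENNReal.tsum_add, ENNReal.tsum_mul_right,
          geoE (1 / 4) _ (by norm_num) (by norm_num) (by positivity), ENNReal.tsum_comm]
        refine add_le_add (le_of_eq ?_) ?_
        · congr 2
          rw [div_pow, one_pow]
          field_simp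
          norm_num
        · rw [← ENNReal.tsum_mul_left]
          refine ENNReal.tsum_le_tsum fun m => ?_
          by_cases hm : m1 ≤ m
          · simp only [if_pos hm]
            rw [ENNReal.tsum_mul_left,
              geoE (1 / 2) _ (by norm_num) (by norm_num) (by positivity), mul_right_comm,
              ← ENNReal.ofReal_mul (by positivity), ← mul_assoc (ENNReal.ofReal (C1 k)),
              ← ENNReal.ofReal_mul (show 0 ≤ C1 k by unfold C1; positivity)]
            refine le_of_eq ?_
            congr 2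
            unfold C1
            have h8 : (4 : ℝ) ^ m = 2 ^ m * 2 ^ m := by rw [← mul_pow]; norm_num
            rw [h8, div_pow, one_pow]
            field_simp
            norm_num
          · simp only [if_neg hm]
            simp

/-- Step C: the pairs at short distance in one region. -/
theorem near_sum1 (k : ℕ) (hk : 0 < k) (hθ : ∃ m, m0 ≤ m ∧ (N : ℝ) ≤ θ m)
    (x0 : Fin N × Fin 3 → ℝ)
    (v : HS (Fin N × Fin 3)) (hv : ind (Om θ m0 x0) (meas_Om x0) v = v)
    (i : Fin N) (n0 : ℕ) (hn0 : lev θ m0 i x0 ≤ n0) :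
    ∑ j ∈ (Finset.univ.erase i).filter (fun j => lev θ m0 i x0 ≤ lev θ m0 j x0),
      ∫⁻ x, (if ‖pt x i - pt x j‖ < 1 / 2 ^ n0 then ENNReal.ofReal (1 / ‖pt x i - pt x j‖)
        else 0) * ‖v x‖ₑ ^ 2 ≤
      ENNReal.ofReal (27 * θ (lev θ m0 i x0)) *
      (ENNReal.ofReal (16 / 3 * KK k * 8 ^ (lev θ m0 i x0) / 4 ^ n0) * ‖v‖ₑ ^ 2 +
      ENNReal.ofReal (C1 k) *
        ∑' m, (if lev θ m0 i x0 ≤ m then
          ENNReal.ofReal (2 ^ m) * ‖v - PP k m i v‖ₑ ^ 2 else 0)) := by
  classical
  set mi := lev θ m0 i x0 with hmi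
  set SR : ℝ≥0∞ := ENNReal.ofReal (16 / 3 * KK k * 8 ^ mi / 4 ^ n0) * ‖v‖ₑ ^ 2 +
      ENNReal.ofReal (C1 k) *
        ∑' m, (if mi ≤ m then ENNReal.ofReal (2 ^ m) * ‖v - PP k m i v‖ₑ ^ 2 else 0) with hSR
  have hterm : ∀ j ∈ (Finset.univ.erase i).filter (fun j => mi ≤ lev θ m0 j x0),
      ∫⁻ x, (if ‖pt x i - pt x j‖ < 1 / 2 ^ n0 then ENNReal.ofReal (1 / ‖pt x i - pt x j‖)
        else 0) * ‖v x‖ₑ ^ 2 ≤ if nb (cell3 mi x0 i) (cell3 mi x0 j) then SR else 0 := by
    intro j hj
    simp only [Finset.mem_filter, Finset.mem_erase, Finset.mem_univ, and_true] at hj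
    split_ifs with hnb
    · exact short1 k hk hj.1 v hn0
    · rw [nonpos_iff_eq_zero]
      rw [lintegral_eq_zero_iff']
      · filter_upwards [ind_coe (meas_Om (θ := θ) (m0 := m0) x0) v] with x hx
        rw [hv] at hx
        by_cases hxΩ : x ∈ Om θ m0 x0
        · have h1 : ¬ ‖pt x i - pt x j‖ < 1 / 2 ^ n0 := by
            intro h2
            apply hnb
            refine tile_nb x0 (pt_mem_tile hxΩ i) (pt_mem_tile hxΩ j) hj.2
              (lt_of_lt_of_le h2 ?_)
            apply one_div_le_one_div_of_le (by positivity)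
            exact pow_le_pow_right₀ (by norm_num) hn0
          rw [if_neg h1]; simp
        · rw [hx, Set.indicator_of_notMem hxΩ]; simp
      · have hm1 : Measurable fun x : Fin N × Fin 3 → ℝ =>
            (if ‖pt x i - pt x j‖ < 1 / 2 ^ n0 then ENNReal.ofReal (1 / ‖pt x i - pt x j‖)
              else 0) :=
          Measurable.ite (meas_pset i j _)
            (((meas_pt i).sub (meas_pt j)).norm.const_div 1).ennreal_ofReal measurable_const
        exact (hm1.mul ((meas_coe v).enorm.pow_const 2)).aemeasurable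
  refine (Finset.sum_le_sum hterm).trans ?_
  rw [← Finset.sum_filter, Finset.sum_const, nsmul_eq_mul]
  gcongr
  have h1 := near_card hθ x0 i
  have h2 : (((((Finset.univ.erase i).filter (fun j => mi ≤ lev θ m0 j x0)).filter
      (fun j => nb (cell3 mi x0 i) (cell3 mi x0 j))).card : ℕ) : ℝ) ≤ 27 * θ mi := by
    refine le_trans ?_ h1
    have h3 : ((Finset.univ.erase i).filter (fun j => mi ≤ lev θ m0 j x0)).filter
      (fun j => nb (cell3 mi x0 i) (cell3 mi x0 j)) ⊆
      Finset.univ.filter (fun j => nb (cell3 mi x0 i) (cell3 mi x0 j)) := by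
      intro j hj
      simp only [Finset.mem_filter, Finset.mem_univ, true_and] at hj ⊢
      exact hj.2
    exact_mod_cast Finset.card_le_card h3
  rw [← ENNReal.ofReal_natCast]
  exact ENNReal.ofReal_le_ofReal h2

end Pool.Agent.KS6_88.CB
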