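import Pool.Graph.R_pool_sql_team_seeded_47a924f7.T6.H42.Low2
import Pool.Agent.KS6_88.CB.Reg1

set_option autoImplicit false
set_option linter.unusedSectionVars false

noncomputable section

namespace Pool.Agent.KS6_88.CB

open MeasureTheory Function Filter Topology
open scoped ENNReal
open Pool.Agent.T6.H42

variable {N : ℕ} {θ : ℕ → ℝ} {m0 : ℕ}

/-- the total inequality in terms of the levels of the tiles -/
theorem total1 {k : ℕ} {nn : ℕ → ℕ} {CE CBC : ℝ} (hp : Par1 k θ m0 nn CE CBC)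
    (hθ : ∃ m, m0 ≤ m ∧ (N : ℝ) ≤ θ m)
    (e : Fin N → ℝ) (he : ∀ i, e i = 1 ∨ e i = -1)
    (φ : HS (Fin N × Fin 3)) (hfin : PairFin φ) :
    ENNReal.ofReal (-∫ x, coulR e x * ‖φ x‖ ^ 2) ≤
      ∑ i, (ENNReal.ofReal CBC * (∫⁻ x, ENNReal.ofReal (2 ^ (lev θ m0 i x)) * ‖φ x‖ₑ ^ 2) +
        ∑' m, (if m0 ≤ m then
          ENNReal.ofReal (CE * θ m * 2 ^ m) * ‖φ - PP k m i φ‖ₑ ^ 2 else 0)) := by
  classical
  have hmono := hp.θmono
  set v : Ty N θ m0 → HS (Fin N × Fin 3) := fun τ => ind (Rg τ) (meas_Rg τ) φ with hv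
  have hvv : ∀ τ, ind (Om θ m0 (rep τ)) (meas_Om _) (v τ) = v τ := fun τ =>
    ind_idem (meas_Rg τ) φ
  have hsum := hasSum_integral_iUnion (f := fun x => coulR e x * ‖φ x‖ ^ 2)
    (s := Rg (N := N) (θ := θ) (m0 := m0)) (fun τ => meas_Rg τ) (Rg_disj hθ hmono)
    (coulR_int hfin).integrableOn
  rw [Rg_union hθ hmono, setIntegral_univ] at hsum
  have hpτ : ∀ τ, ∫ x in Rg τ, coulR e x * ‖φ x‖ ^ 2 = ∫ x, coulR e x * ‖v τ x‖ ^ 2 := by
    intro τ
    rw [← integral_indicator (meas_Rg τ)]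
    refine integral_congr_ae ?_
    filter_upwards [ind_coe (meas_Rg τ) φ] with x hx
    simp only [hv]
    rw [hx]
    by_cases h : x ∈ Rg τ <;> simp [h]
  have hregion : ∀ τ, ENNReal.ofReal (-∫ x in Rg τ, coulR e x * ‖φ x‖ ^ 2) ≤
      ∑ i, (ENNReal.ofReal (CBC * 2 ^ (lev θ m0 i (rep τ))) * ‖v τ‖ₑ ^ 2 +
        ∑' m, (if lev θ m0 i (rep τ) ≤ m then
          ENNReal.ofReal (CE * θ m * 2 ^ m) * ‖v τ - PP k m i (v τ)‖ₑ ^ 2 else 0)) := by
    intro τ
    rw [hpτ]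
    exact region1 hp hθ e he (rep τ) (v τ) (hvv τ) (hfin.ind (meas_Rg τ))
  have hneg : -∫ x, coulR e x * ‖φ x‖ ^ 2 =
      ∑' τ : Ty N θ m0, -∫ x in Rg τ, coulR e x * ‖φ x‖ ^ 2 := by
    rw [tsum_neg, hsum.tsum_eq]
  rw [hneg]
  refine (ofReal_tsum_le hsum.summable.neg).trans ?_
  refine (ENNReal.tsum_le_tsum hregion).trans ?_
  rw [Summable.tsum_finsetSum (fun i _ => ENNReal.summable)]
  refine Finset.sum_le_sum fun i _ => ?_
  rw [ENNReal.tsum_add]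
  refine add_le_add ?_ ?_
  · refine le_of_eq ?_
    have h1 : ∀ τ : Ty N θ m0, ENNReal.ofReal (CBC * 2 ^ (lev θ m0 i (rep τ))) * ‖v τ‖ₑ ^ 2 =
        ENNReal.ofReal CBC * ∫⁻ x in Rg τ, ENNReal.ofReal (2 ^ (lev θ m0 i x)) * ‖φ x‖ₑ ^ 2 := by
      intro τ
      rw [ENNReal.ofReal_mul hp.C0, mul_assoc]
      congr 1
      have h2 : ∫⁻ x in Rg τ, ENNReal.ofReal (2 ^ (lev θ m0 i x)) * ‖φ x‖ₑ ^ 2 =
          ∫⁻ x in Rg τ, ENNReal.ofReal (2 ^ (lev θ m0 i (rep τ))) * ‖φ x‖ₑ ^ 2 := by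
        refine setLIntegral_congr_fun (meas_Rg τ) fun x hx => ?_
        rw [Rg_lev hθ hmono τ hx]
      rw [h2, lintegral_const_mul _ ((meas_coe φ).enorm.pow_const 2)]
      congr 1
      have h3 := lint_ind (meas_Rg τ) φ (fun _ => 1)
      simp only [one_mul] at h3
      rw [← h3, lint_sq]
    simp_rw [h1]
    rw [ENNReal.tsum_mul_left, ← lintegral_iUnion (fun τ => meas_Rg τ) (Rg_disj hθ hmono),
      Rg_union hθ hmono, setLIntegral_univ]
  · rw [ENNReal.tsum_comm]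
    gcongr with m
    have h1 : ∀ τ : Ty N θ m0, (if lev θ m0 i (rep τ) ≤ m then
          ENNReal.ofReal (CE * θ m * 2 ^ m) * ‖v τ - PP k m i (v τ)‖ₑ ^ 2 else 0) ≤
        if m0 ≤ m then ENNReal.ofReal (CE * θ m * 2 ^ m) *
          ∫⁻ x in Rg τ, ‖(φ - PP k m i φ) x‖ₑ ^ 2
        else 0 := by
      intro τ
      split_ifs with h h'
      · have h2 : v τ - PP k m i (v τ) = ind (Rg τ) (meas_Rg τ) (φ - PP k m i φ) := by
          simp only [hv]
          rw [map_sub]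
          congr 1
          exact PP_ind k m i (meas_Rg τ) (sat_Om (rep τ) i h) φ
        rw [h2]
        have h3 := lint_ind (meas_Rg τ) (φ - PP k m i φ) (fun _ => 1)
        simp only [one_mul] at h3
        rw [← h3, lint_sq]
      · exact absurd ((lev_mem hθ i (rep τ)).1.trans h) h'
      · exact zero_le
      · exact le_rfl
    refine (ENNReal.tsum_le_tsum h1).trans (le_of_eq ?_)
    split_ifs
    · rw [ENNReal.tsum_mul_left, ← lintegral_iUnion (fun τ => meas_Rg τ) (Rg_disj hθ hmono),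
        Rg_union hθ hmono, setLIntegral_univ, lint_sq]
    · simp

theorem pairFin1 (k : ℕ) (hk : 0 < k)
    (φ : HS (Fin N × Fin 3)) (h : ∀ i, Ea k 2 i φ ≠ ⊤) : PairFin φ := by
  intro i j hij
  have h1 := short1 k hk hij φ (m1 := 0) (n0 := 0) le_rfl
  have hm : Measurable fun x : Fin N × Fin 3 → ℝ =>
      (if ‖pt x i - pt x j‖ < 1 / 2 ^ 0 then ENNReal.ofReal (1 / ‖pt x i - pt x j‖) else 0) *
        ‖φ x‖ₑ ^ 2 := by
    refine Measurable.mul ?_ ((meas_coe φ).enorm.pow_const 2)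
    exact Measurable.ite (meas_pset i j _)
      (((meas_pt i).sub (meas_pt j)).norm.const_div 1).ennreal_ofReal measurable_const
  have h2 : ∫⁻ x, ENNReal.ofReal (1 / ‖pt x i - pt x j‖) * ‖φ x‖ₑ ^ 2 ≤
      (∫⁻ x, (if ‖pt x i - pt x j‖ < 1 / 2 ^ 0 then ENNReal.ofReal (1 / ‖pt x i - pt x j‖)
        else 0) * ‖φ x‖ₑ ^ 2) + ∫⁻ x, ‖φ x‖ₑ ^ 2 := by
    rw [← lintegral_add_left hm]
    refine lintegral_mono fun x => ?_
    simp only
    split_ifs with hx
    · exact le_self_add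
    · rw [zero_mul, zero_add]
      have h3 : ENNReal.ofReal (1 / ‖pt x i - pt x j‖) ≤ 1 := by
        rw [← ENNReal.ofReal_one]
        apply ENNReal.ofReal_le_ofReal
        push Not at hx
        rw [pow_zero, div_one] at hx
        rw [div_le_iff₀ (by linarith)]
        linarith
      calc _ ≤ 1 * ‖φ x‖ₑ ^ 2 := by gcongr
        _ = _ := one_mul _
  refine ne_top_of_le_ne_top ?_ h2
  refine ENNReal.add_ne_top.2 ⟨?_, lint_sq_ne_top φ⟩
  refine ne_top_of_le_ne_top ?_ h1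
  refine ENNReal.add_ne_top.2 ⟨by finiteness, ?_⟩
  refine ENNReal.mul_ne_top (by simp) ?_
  refine ne_top_of_le_ne_top (h i) ?_
  unfold Ea
  refine ENNReal.tsum_le_tsum fun m => ?_
  rw [if_pos (Nat.zero_le m)]

end Pool.Agent.KS6_88.CB
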